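import Mathlib

set_option autoImplicit false

/-!
# Zariski decompositions of curve classes on a blow-up of the projective plane

`k` is an algebraically closed field, `p i` (`i : ι`, `ι` finite) are distinct points of `P²(k)`,
given by nonzero vectors of `k³`, and `X` is the blow-up of `P²` in these points, a smooth
projective surface (so `dim X = 2`, and the cycles have dimension `1`).

The group `N_1(X)` of `1`-cycles modulo numerical equivalence has the basis `H` (pull back of a
line), `E_i` (exceptional curves), the intersection form being `diag (1, -1, …, -1)`. The class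
`d H - ∑ m_i E_i` is recorded as the pair `(d, m)` in `ℤ × (ι → ℤ)`, or in `ℝ × (ι → ℝ)` for real
classes.
-/

namespace Pool.Agent.H469R10.ZD

open MvPolynomial Filter Topology
open scoped NNReal ENNReal

variable {k : Type} [Field k] {ι : Type}

/-- The plane curve `G = 0` has multiplicity exactly `m` at the point `q`: the polynomial `G` lies
in the `m`-th, but not in the `(m+1)`-st power of the maximal ideal of `q`. -/
def IsMult (q : Fin 3 → k) (G : MvPolynomial (Fin 3) k) (m : ℕ) : Prop :=
  G ∈ RingHom.ker (eval q) ^ m ∧ G ∉ RingHom.ker (eval q) ^ (m + 1)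

/-- Effective integral `1`-cycles on `X` and their classes. By unique factorisation the plane
curves (effective cycles on `P²`) are the nonzero homogeneous polynomials `G` up to scalars, and an
effective cycle on `X` is the strict transform of a plane curve `G` plus `∑ e_i E_i` with `e_i ≥ 0`.
Its class is `d H - ∑ (mult_{p_i} G - e_i) E_i`, `d` the degree of `G`. -/
def IsCycle (p : ι → Fin 3 → k) (G : MvPolynomial (Fin 3) k) (e : ι → ℕ) (c : ℤ × (ι → ℤ)) :
    Prop :=
  G ≠ 0 ∧ (∃ d : ℕ, G.IsHomogeneous d ∧ c.1 = d) ∧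
    ∀ i, ∃ m : ℕ, IsMult (p i) G m ∧ c.2 i = (m : ℤ) - e i

open Classical in
/-- Irreducible curves on `X` and their classes: the strict transforms of the irreducible plane
curves and the exceptional curves `E_i`. -/
def IsCurve (p : ι → Fin 3 → k) (G : MvPolynomial (Fin 3) k) (e : ι → ℕ) (c : ℤ × (ι → ℤ)) :
    Prop :=
  IsCycle p G e c ∧ ((Irreducible G ∧ e = 0) ∨ (G = 1 ∧ ∃ i, e = Pi.single i 1))

/-- Any `b` general points of `X` lie on an effective cycle of class `c`: this holds for all
`b`-tuples `x` of points outside of the zero set of some nonzero polynomial `Φ` in their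
coordinates. (General points lie outside of the exceptional curves, hence are points `x j` of `P²`,
and such a point lies on the cycle `(G, e)` if and only if `G` vanishes there.) -/
def GenPts (p : ι → Fin 3 → k) (b : ℕ) (c : ℤ × (ι → ℤ)) : Prop :=
  ∃ Φ : MvPolynomial (Fin b × Fin 3) k, Φ ≠ 0 ∧ ∀ x : Fin b → Fin 3 → k,
    eval (fun ij => x ij.1 ij.2) Φ ≠ 0 →
      ∃ G e, IsCycle p G e c ∧ ∀ j, eval (x j) G = 0

/-- The maximal number `b` such that any `b` general points of `X` lie on an effective cycle of
class `c`. -/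
noncomputable def maxPts (p : ι → Fin 3 → k) (c : ℤ × (ι → ℤ)) : ℕ∞ :=
  ⨆ (b : ℕ) (_ : GenPts p b c), (b : ℕ∞)

/-- The mobility of an integral class, `limsup maxPts (m c) / (m ^ 2 / 2!)`. -/
noncomputable def mob (p : ι → Fin 3 → k) (c : ℤ × (ι → ℤ)) : ℝ≥0∞ :=
  limsup (fun m : ℕ => ((maxPts p (m • c) : ℕ∞) : ℝ≥0∞) / ((m : ℝ≥0∞) ^ 2 / 2)) atTop

/-- The real class defined by an integral class. -/
def toR (c : ℤ × (ι → ℤ)) : ℝ × (ι → ℝ) := ((c.1 : ℝ), fun i => (c.2 i : ℝ))

/-- The closure of the cone spanned by a set of classes. -/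
def ClCone (S : Set (ℝ × (ι → ℝ))) : Set (ℝ × (ι → ℝ)) :=
  closure (Submodule.span ℝ≥0 S : Set (ℝ × (ι → ℝ)))

/-- The pseudo-effective cone `Eff_1(X)`. Its interior consists of the big classes. -/
def Eff (p : ι → Fin 3 → k) : Set (ℝ × (ι → ℝ)) :=
  ClCone {x | ∃ G e c, IsCycle p G e c ∧ x = toR c}

/-- `c` is the class of irreducible curves which are members of a family covering `X`: through a
general point of `X` passes an irreducible curve of class `c`. (All effective cycles of class `c`
are members of one family, as they form a linear system.) -/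
def Covering (p : ι → Fin 3 → k) (c : ℤ × (ι → ℤ)) : Prop :=
  ∃ Φ : MvPolynomial (Fin 3) k, Φ ≠ 0 ∧ ∀ x : Fin 3 → k, eval x Φ ≠ 0 →
    ∃ G e, IsCurve p G e c ∧ eval x G = 0

/-- The movable cone. -/
def Mov (p : ι → Fin 3 → k) : Set (ℝ × (ι → ℝ)) :=
  ClCone {x | ∃ c, Covering p c ∧ x = toR c}

/-- The pairs `(t β, t P)`, where `t > 0`, `β` is a big integral class and `P` is an integral
class which is a positive part of `β`: `P` is movable, `β - P` is pseudo-effective and
`mob P = mob β`. -/
def PosPairs (p : ι → Fin 3 → k) : Set ((ℝ × (ι → ℝ)) × (ℝ × (ι → ℝ))) :=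
  {z | ∃ (β P : ℤ × (ι → ℤ)) (t : ℝ), 0 < t ∧ toR β ∈ interior (Eff p) ∧ toR P ∈ Mov p ∧
    toR β - toR P ∈ Eff p ∧ mob p P = mob p β ∧ z = (t • toR β, t • toR P)}

/-- `N` is the push forward of a pseudo-effective class of a closed subscheme `W ≠ X`: it lies in
the closed cone spanned by the classes of finitely many irreducible curves (the components of
dimension one of `W`). -/
def Supported (p : ι → Fin 3 → k) (N : ℝ × (ι → ℝ)) : Prop :=
  ∃ S : Set (ℤ × (ι → ℤ)), S.Finite ∧ (∀ c ∈ S, ∃ G e, IsCurve p G e c) ∧ N ∈ ClCone (toR '' S)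

end Pool.Agent.H469R10.ZD
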