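import Mathlib
import Pool.Agent.H469R10.ZD.Defs

set_option autoImplicit false

namespace Pool.Agent.H469R10.ZD

open MvPolynomial

variable {k : Type} [Field k] {ι : Type}

/-- the maximal ideal of a point -/
noncomputable abbrev mx (q : Fin 3 → k) : Ideal (MvPolynomial (Fin 3) k) := RingHom.ker (eval q)

theorem mx_max (q : Fin 3 → k) : (mx q).IsMaximal :=
  RingHom.ker_isMaximal_of_surjective _ (fun c => ⟨C c, by simp⟩)

theorem cancel {q : Fin 3 → k} {h G : MvPolynomial (Fin 3) k} {n : ℕ} (hh : eval q h ≠ 0)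
    (H : h * G ∈ mx q ^ n) : G ∈ mx q ^ n := by
  have h1 : h ∉ mx q := by rwa [RingHom.mem_ker]
  have h2 : Ideal.span {h} ⊔ mx q = ⊤ := by
    rw [sup_comm]
    exact (Ideal.isMaximal_def.1 (mx_max q)).2 _ (left_lt_sup.2 (fun hle =>
      h1 (hle (Ideal.mem_span_singleton_self h))))
  have h3 : Ideal.span {h} ⊔ mx q ^ n = ⊤ := Ideal.sup_pow_eq_top h2
  have h4 : (1 : MvPolynomial (Fin 3) k) ∈ Ideal.span {h} ⊔ mx q ^ n := by rw [h3]; trivial
  obtain ⟨a, ha, b, hb, hab⟩ := Submodule.mem_sup.1 h4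
  obtain ⟨a', rfl⟩ := Ideal.mem_span_singleton'.1 ha
  have h5 : G = a' * (h * G) + G * b := by
    calc G = (a' * h + b) * G := by rw [hab, one_mul]
      _ = _ := by ring
  rw [h5]
  exact Ideal.add_mem _ (Ideal.mul_mem_left _ _ H) (Ideal.mul_mem_left _ _ hb)

theorem subst_mem {q : Fin 3 → k} (Φ : Fin 3 → MvPolynomial (Fin 3) k)
    {G : MvPolynomial (Fin 3) k} {n : ℕ} (H : G ∈ mx (fun i => eval q (Φ i)) ^ n) :
    aeval Φ G ∈ mx q ^ n := by
  have h1 : mx (fun i => eval q (Φ i)) ≤ (mx q).comap (aeval Φ : _ →ₐ[k] _).toRingHom := by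
    intro P hP
    rw [Ideal.mem_comap, RingHom.mem_ker]
    rw [RingHom.mem_ker] at hP
    have : eval q (aeval Φ P) = eval (fun i => eval q (Φ i)) P := by
      rw [← MvPolynomial.coe_aeval_eq_eval, ← MvPolynomial.coe_aeval_eq_eval]
      simp only [RingHom.coe_coe, ← AlgHom.comp_apply, comp_aeval]
    exact this.trans hP
  have h2 : mx (fun i => eval q (Φ i)) ^ n ≤
      (mx q ^ n).comap (aeval Φ : _ →ₐ[k] _).toRingHom :=
    (Ideal.pow_right_mono h1 n).trans (Ideal.le_comap_pow _ n)
  exact h2 H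

theorem eval_aeval (q : Fin 3 → k) (Φ : Fin 3 → MvPolynomial (Fin 3) k)
    (G : MvPolynomial (Fin 3) k) :
    eval q (aeval Φ G) = eval (fun i => eval q (Φ i)) G := by
  rw [← MvPolynomial.coe_aeval_eq_eval, ← MvPolynomial.coe_aeval_eq_eval]
  simp only [RingHom.coe_coe, ← AlgHom.comp_apply, comp_aeval]

theorem hom_degree {G : MvPolynomial (Fin 3) k} {d : ℕ} (hG : G.IsHomogeneous d) {a : Fin 3 →₀ ℕ}
    (ha : a ∈ G.support) : a.degree = d := by
  rw [hG.degree_eq_sum_deg_support ha]
  rfl

/-- substituting `c X_i` in a homogeneous polynomial -/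
theorem aeval_smul {G : MvPolynomial (Fin 3) k} {d : ℕ} (hG : G.IsHomogeneous d) (c : k) :
    aeval (fun i => C c * X i) G = C (c ^ d) * G := by
  conv_lhs => rw [G.as_sum]
  conv_rhs => rw [G.as_sum]
  rw [map_sum, Finset.mul_sum]
  refine Finset.sum_congr rfl fun a ha => ?_
  have h1 : a.degree = d := hom_degree hG ha
  rw [aeval_monomial, monomial_eq, Finsupp.prod_fintype _ _ (by simp),
    Finsupp.prod_fintype _ _ (by simp)]
  simp only [mul_pow, Finset.prod_mul_distrib, Finset.prod_pow_eq_pow_sum]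
  rw [← h1, Finsupp.degree_eq_sum]
  simp only [map_pow, algebraMap_eq]
  ring

theorem scale_mem {G : MvPolynomial (Fin 3) k} {d : ℕ} (hG : G.IsHomogeneous d) {c : k}
    (hc : c ≠ 0) {q : Fin 3 → k} {n : ℕ} (H : G ∈ mx (c • q) ^ n) : G ∈ mx q ^ n := by
  have h1 : G ∈ mx (fun i => eval q (C c * X i : MvPolynomial (Fin 3) k)) ^ n := by
    have : (fun i => eval q (C c * X i : MvPolynomial (Fin 3) k)) = c • q := by
      funext i; simp
    rwa [this]
  have h2 := subst_mem _ h1
  rw [aeval_smul hG] at h2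
  refine cancel (h := C (c ^ d)) ?_ h2
  simpa using pow_ne_zero d hc

theorem scale_iff {G : MvPolynomial (Fin 3) k} {d : ℕ} (hG : G.IsHomogeneous d) {c : k}
    (hc : c ≠ 0) {q : Fin 3 → k} {n : ℕ} : G ∈ mx (c • q) ^ n ↔ G ∈ mx q ^ n := by
  refine ⟨scale_mem hG hc, fun H => ?_⟩
  apply scale_mem hG (inv_ne_zero hc) (q := c • q)
  rwa [smul_smul, inv_mul_cancel₀ hc, one_smul]

theorem degree_fin3 (a : Fin 3 →₀ ℕ) : a.degree = a 0 + a 1 + a 2 := by
  rw [Finsupp.degree_eq_sum, Fin.sum_univ_three]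

theorem hom_sum {G : MvPolynomial (Fin 3) k} {d : ℕ} (hG : G.IsHomogeneous d) {a : Fin 3 →₀ ℕ}
    (ha : a ∈ G.support) : a 0 + a 1 + a 2 = d := by
  rw [← degree_fin3]; exact hom_degree hG ha

/-- multiplicity at the coordinate points -/
theorem mem_single {G : MvPolynomial (Fin 3) k} {d : ℕ} (hG : G.IsHomogeneous d) (i : Fin 3)
    (n : ℕ) : G ∈ mx (Pi.single i (1 : k)) ^ n ↔ ∀ a ∈ G.support, a i + n ≤ d := by
  classical
  have hsum : ∀ a : Fin 3 →₀ ℕ, a.degree = a i + (a.erase i).degree := by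
    intro a
    conv_lhs => rw [← Finsupp.single_add_erase i a]
    rw [map_add, Finsupp.degree_single]
  constructor
  · intro H a ha
    set Φ : Fin 3 → MvPolynomial (Fin 3) k := Function.update (fun j => X j) i 1 with hΦ
    have h1 : G ∈ mx (fun j => eval (0 : Fin 3 → k) (Φ j)) ^ n := by
      have : (fun j => eval (0 : Fin 3 → k) (Φ j)) = Pi.single i (1 : k) := by
        funext j
        by_cases hj : j = i
        · subst hj; simp [hΦ]
        · simp [hΦ, hj]
      rwa [this]
    have h2 := subst_mem Φ h1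
    have h3 : mx (0 : Fin 3 → k) = idealOfVars (Fin 3) k := by
      symm
      have hle : idealOfVars (Fin 3) k ≤ mx (0 : Fin 3 → k) := by
        rw [idealOfVars, Ideal.span_le]
        rintro _ ⟨j, rfl⟩
        simp [RingHom.mem_ker]
      refine le_antisymm hle ?_
      intro P hP
      rw [RingHom.mem_ker] at hP
      have := (mem_pow_idealOfVars_iff (σ := Fin 3) (R := k) 1 P).2 ?_
      · simpa using this
      · intro a ha
        by_contra hcon
        have h0 : a = 0 := by
          have : a.degree = 0 := by omega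
          exact (Finsupp.degree_eq_zero_iff a).1 this
        subst h0
        rw [mem_support_iff] at ha
        apply ha
        have : eval (0 : Fin 3 → k) P = constantCoeff P := by
          rw [← MvPolynomial.eval_zero']
          rfl
        rw [this] at hP
        exact hP
    rw [h3, mem_pow_idealOfVars_iff] at h2
    -- the coefficient of `aeval Φ G` at `a.erase i`
    have h4 : aeval Φ G = ∑ b ∈ G.support, monomial (b.erase i) (coeff b G) := by
      conv_lhs => rw [G.as_sum]
      rw [map_sum]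
      refine Finset.sum_congr rfl fun b _ => ?_
      rw [aeval_monomial, monomial_eq, algebraMap_eq, Finsupp.prod_fintype _ _ (by simp),
        Finsupp.prod_fintype _ _ (by simp)]
      congr 1
      refine Finset.prod_congr rfl fun j _ => ?_
      by_cases hj : j = i
      · subst hj; simp [hΦ]
      · simp [hΦ, hj]
    have h5 : coeff (a.erase i) (aeval Φ G) = coeff a G := by
      rw [h4, coeff_sum, Finset.sum_eq_single a]
      · simp
      · intro b hb hba
        rw [coeff_monomial, if_neg]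
        intro heq
        apply hba
        have e1 := hsum a
        have e2 := hsum b
        have e3 : a.degree = d := hom_degree hG ha
        have e4 : b.degree = d := hom_degree hG hb
        rw [heq] at e2
        have e5 : a i = b i := by omega
        rw [← Finsupp.single_add_erase i a, ← Finsupp.single_add_erase i b, heq, e5]
      · intro h; exact absurd ha h
    have h6 : a.erase i ∈ (aeval Φ G).support := by
      rw [mem_support_iff, h5]
      exact mem_support_iff.1 ha
    have h7 := h2 _ h6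
    have e1 := hsum a
    have e3 : a.degree = d := hom_degree hG ha
    omega
  · intro H
    rw [G.as_sum]
    refine Ideal.sum_mem _ fun a ha => ?_
    have h1 : monomial a (coeff a G) = C (coeff a G) * X i ^ (a i) *
        ∏ j ∈ Finset.univ.erase i, X j ^ (a j) := by
      rw [monomial_eq, Finsupp.prod_fintype _ _ (by simp), mul_assoc,
        Finset.mul_prod_erase _ (fun j => (X j : MvPolynomial (Fin 3) k) ^ (a j)) (Finset.mem_univ i)]
    rw [h1]
    refine Ideal.mul_mem_left _ _ ?_
    have h2 : ∏ j ∈ Finset.univ.erase i, (X j : MvPolynomial (Fin 3) k) ^ (a j) ∈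
        mx (Pi.single i (1 : k)) ^ (∑ j ∈ Finset.univ.erase i, a j) := by
      rw [← Finset.prod_pow_eq_pow_sum]
      refine Ideal.prod_mem_prod fun j hj => ?_
      refine Ideal.pow_mem_pow ?_ _
      rw [RingHom.mem_ker, eval_X]
      exact Pi.single_eq_of_ne (Finset.ne_of_mem_erase hj) _
    refine Ideal.pow_le_pow_right ?_ h2
    have h3 := H a ha
    have h4 : a i + ∑ j ∈ Finset.univ.erase i, a j = d := by
      rw [Finset.add_sum_erase _ _ (Finset.mem_univ i), Fin.sum_univ_three]
      exact hom_sum hG ha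
    omega

theorem exists_mult {G : MvPolynomial (Fin 3) k} (hG : G ≠ 0) (q : Fin 3 → k) :
    ∃ m, IsMult q G m := by
  classical
  have h1 : ⨅ i : ℕ, mx q ^ i = ⊥ := Ideal.iInf_pow_eq_bot_of_isDomain _ (mx_max q).ne_top
  have h2 : ∃ n, G ∉ mx q ^ n := by
    by_contra hcon
    push Not at hcon
    apply hG
    have : G ∈ ⨅ i : ℕ, mx q ^ i := by
      rw [Submodule.mem_iInf]; exact hcon
    rw [h1] at this
    exact this
  have h3 := Nat.find_spec h2
  have h4 : Nat.find h2 ≠ 0 := by
    intro h0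
    rw [h0] at h3
    simp at h3
  refine ⟨Nat.find h2 - 1, ?_, ?_⟩
  · by_contra hcon
    exact Nat.find_min h2 (Nat.sub_lt (Nat.pos_of_ne_zero h4) one_pos) hcon
  · have : Nat.find h2 - 1 + 1 = Nat.find h2 := by omega
    rw [this]
    exact h3

theorem IsMult.mem_iff {q : Fin 3 → k} {G : MvPolynomial (Fin 3) k} {m : ℕ} (h : IsMult q G m)
    (n : ℕ) : G ∈ mx q ^ n ↔ n ≤ m := by
  constructor
  · intro hn
    by_contra hcon
    exact h.2 (Ideal.pow_le_pow_right (by omega) hn)
  · intro hn
    exact Ideal.pow_le_pow_right hn h.1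

theorem IsMult.unique {q : Fin 3 → k} {G : MvPolynomial (Fin 3) k} {m m' : ℕ} (h : IsMult q G m)
    (h' : IsMult q G m') : m = m' :=
  le_antisymm ((h'.mem_iff m).1 h.1) ((h.mem_iff m').1 h'.1)

theorem isMult_scale {G : MvPolynomial (Fin 3) k} {d : ℕ} (hG : G.IsHomogeneous d) {c : k}
    (hc : c ≠ 0) {q : Fin 3 → k} {n : ℕ} : IsMult (c • q) G n ↔ IsMult q G n := by
  unfold IsMult
  rw [scale_iff (n := n) hG hc, scale_iff (n := n + 1) hG hc]

/-- effective cycles in terms of lower bounds of the multiplicities -/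
theorem exists_cycle_iff {p : ι → Fin 3 → k} {G : MvPolynomial (Fin 3) k} {c : ℤ × (ι → ℤ)} :
    (∃ e, IsCycle p G e c) ↔ G ≠ 0 ∧ (∃ d : ℕ, G.IsHomogeneous d ∧ c.1 = d) ∧
      ∀ i, G ∈ mx (p i) ^ (c.2 i).toNat := by
  constructor
  · rintro ⟨e, h1, h2, h3⟩
    refine ⟨h1, h2, fun i => ?_⟩
    obtain ⟨m, hm, hc⟩ := h3 i
    rw [hm.mem_iff]
    omega
  · rintro ⟨h1, h2, h3⟩
    choose m hm using fun i => exists_mult h1 (p i)
    refine ⟨fun i => ((m i : ℤ) - c.2 i).toNat, h1, h2, fun i => ⟨m i, hm i, ?_⟩⟩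
    have := ((hm i).mem_iff _).1 (h3 i)
    show c.2 i = (m i : ℤ) - (((m i : ℤ) - c.2 i).toNat : ℤ)
    omega

end Pool.Agent.H469R10.ZD
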