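import Mathlib
import Pool.Agent.H469R10.ZD.Mult

set_option autoImplicit false

/-! The standard quadratic transformation on plane curves. -/

namespace Pool.Agent.H469R10.ZD

open MvPolynomial

variable {k : Type} [Field k]

/-- the action on exponents -/
noncomputable def tau (d : ℤ) (m : Fin 3 → ℤ) (a : Fin 3 →₀ ℕ) : Fin 3 →₀ ℕ :=
  Finsupp.equivFunOnFinite.symm (fun i => (d - a i - m i).toNat)

theorem tau_apply (d : ℤ) (m : Fin 3 → ℤ) (a : Fin 3 →₀ ℕ) (i : Fin 3) :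
    tau d m a i = (d - a i - m i).toNat := rfl

/-- the linear map given by a map of exponents -/
noncomputable def TT (τ : (Fin 3 →₀ ℕ) → (Fin 3 →₀ ℕ)) :
    MvPolynomial (Fin 3) k →ₗ[k] MvPolynomial (Fin 3) k :=
  (basisMonomials (Fin 3) k).constr k (fun a => monomial (τ a) 1)

theorem TT_monomial (τ : (Fin 3 →₀ ℕ) → (Fin 3 →₀ ℕ)) (a : Fin 3 →₀ ℕ) (c : k) :
    TT τ (monomial a c) = monomial (τ a) c := by
  have h1 : (monomial a c : MvPolynomial (Fin 3) k) = c • basisMonomials (Fin 3) k a := by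
    simp [coe_basisMonomials, smul_monomial]
  rw [h1, map_smul, TT, Module.Basis.constr_basis, smul_monomial, smul_eq_mul, mul_one]

theorem TT_sum (τ : (Fin 3 →₀ ℕ) → (Fin 3 →₀ ℕ)) (G : MvPolynomial (Fin 3) k) :
    TT τ G = ∑ a ∈ G.support, monomial (τ a) (coeff a G) := by
  conv_lhs => rw [G.as_sum]
  rw [map_sum]
  exact Finset.sum_congr rfl fun a _ => TT_monomial τ a _

/-- the transform -/
noncomputable def Tr (d : ℤ) (m : Fin 3 → ℤ) (G : MvPolynomial (Fin 3) k) :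
    MvPolynomial (Fin 3) k := TT (tau d m) G

/-- the conditions on the exponents -/
def Cond (d : ℕ) (m : Fin 3 → ℤ) (G : MvPolynomial (Fin 3) k) : Prop :=
  G.IsHomogeneous d ∧ ∀ a ∈ G.support, ∀ i, (a i : ℤ) + m i ≤ d

theorem cond_of_mem {d : ℕ} {m : Fin 3 → ℤ} {G : MvPolynomial (Fin 3) k}
    (hG : G.IsHomogeneous d) (h : ∀ i, G ∈ mx (Pi.single i (1 : k)) ^ (m i).toNat) :
    Cond d m G := by
  refine ⟨hG, fun a ha i => ?_⟩
  have h1 := (mem_single hG i _).1 (h i) a ha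
  have h2 := hom_sum hG ha
  omega

/-- the new degree -/
def dd (d : ℤ) (m : Fin 3 → ℤ) : ℤ := 2 * d - (m 0 + m 1 + m 2)

/-- the new multiplicities -/
def mm (d : ℤ) (m : Fin 3 → ℤ) (i : Fin 3) : ℤ := d - (m 0 + m 1 + m 2) + m i

theorem tau_tau {d : ℕ} {m : Fin 3 → ℤ} {G : MvPolynomial (Fin 3) k} (h : Cond d m G)
    {a : Fin 3 →₀ ℕ} (ha : a ∈ G.support) : tau (dd d m) (mm d m) (tau d m a) = a := by
  ext i
  rw [tau_apply, tau_apply]
  have h1 := h.2 a ha i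
  unfold dd mm
  omega

theorem Tr_Tr {d : ℕ} {m : Fin 3 → ℤ} {G : MvPolynomial (Fin 3) k} (h : Cond d m G) :
    Tr (dd d m) (mm d m) (Tr d m G) = G := by
  unfold Tr
  rw [TT_sum _ G, map_sum]
  conv_rhs => rw [G.as_sum]
  refine Finset.sum_congr rfl fun a ha => ?_
  rw [TT_monomial, tau_tau h ha]

theorem coeff_Tr {d : ℕ} {m : Fin 3 → ℤ} {G : MvPolynomial (Fin 3) k} (h : Cond d m G)
    {a : Fin 3 →₀ ℕ} (ha : a ∈ G.support) : coeff (tau d m a) (Tr d m G) = coeff a G := by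
  classical
  unfold Tr
  rw [TT_sum, coeff_sum, Finset.sum_eq_single a]
  · simp
  · intro b hb hba
    rw [coeff_monomial, if_neg]
    intro heq
    apply hba
    rw [← tau_tau h hb, heq, tau_tau h ha]
  · intro h'; exact absurd ha h'

theorem mem_support_Tr {d : ℕ} {m : Fin 3 → ℤ} {G : MvPolynomial (Fin 3) k} {b : Fin 3 →₀ ℕ}
    (hb : b ∈ (Tr d m G).support) : ∃ a ∈ G.support, b = tau d m a := by
  classical
  by_contra hcon
  push Not at hcon
  rw [mem_support_iff] at hb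
  apply hb
  unfold Tr
  rw [TT_sum, coeff_sum]
  refine Finset.sum_eq_zero fun a ha => ?_
  rw [coeff_monomial, if_neg]
  exact fun h => hcon a ha h.symm

theorem tau_mem {d : ℕ} {m : Fin 3 → ℤ} {G : MvPolynomial (Fin 3) k} (h : Cond d m G)
    {a : Fin 3 →₀ ℕ} (ha : a ∈ G.support) : tau d m a ∈ (Tr d m G).support := by
  rw [mem_support_iff, coeff_Tr h ha]
  exact mem_support_iff.1 ha

theorem Tr_ne_zero {d : ℕ} {m : Fin 3 → ℤ} {G : MvPolynomial (Fin 3) k} (h : Cond d m G)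
    (hG : G ≠ 0) : Tr d m G ≠ 0 := by
  intro h0
  apply hG
  rw [← Tr_Tr h, h0]
  exact map_zero _

theorem dd_nonneg {d : ℕ} {m : Fin 3 → ℤ} {G : MvPolynomial (Fin 3) k} (h : Cond d m G)
    (hG : G ≠ 0) : 0 ≤ dd d m := by
  obtain ⟨a, ha⟩ := (support_nonempty).2 hG
  have h0 := h.2 a ha 0
  have h1 := h.2 a ha 1
  have h2 := h.2 a ha 2
  have h3 := hom_sum h.1 ha
  unfold dd
  omega

theorem Tr_hom {d : ℕ} {m : Fin 3 → ℤ} {G : MvPolynomial (Fin 3) k} (h : Cond d m G) :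
    (Tr d m G).IsHomogeneous (dd d m).toNat := by
  unfold Tr
  rw [TT_sum]
  refine IsHomogeneous.sum _ _ _ fun a ha => isHomogeneous_monomial _ ?_
  rw [degree_fin3]
  simp only [tau_apply]
  have h0 := h.2 a ha 0
  have h1 := h.2 a ha 1
  have h2 := h.2 a ha 2
  have h3 := hom_sum h.1 ha
  unfold dd
  omega

theorem Cond_Tr {d : ℕ} {m : Fin 3 → ℤ} {G : MvPolynomial (Fin 3) k} (h : Cond d m G) :
    Cond (dd d m).toNat (mm d m) (Tr d m G) := by
  refine ⟨Tr_hom h, fun b hb i => ?_⟩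
  obtain ⟨a, ha, rfl⟩ := mem_support_Tr hb
  have h3 := hom_sum h.1 ha
  rw [tau_apply]
  have h0 := h.2 a ha 0
  have h1 := h.2 a ha 1
  have h2 := h.2 a ha 2
  have hi := h.2 a ha i
  unfold dd mm
  omega

/-- multiplicities of the transform at the coordinate points -/
theorem Tr_mem_single {d : ℕ} {m : Fin 3 → ℤ} {G : MvPolynomial (Fin 3) k} (h : Cond d m G)
    (i : Fin 3) : Tr d m G ∈ mx (Pi.single i (1 : k)) ^ (mm d m i).toNat := by
  rw [mem_single (Tr_hom h)]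
  intro b hb
  have h1 := (Cond_Tr h).2 b hb i
  have h2 := hom_sum (Tr_hom h) hb
  have h3 : b i ≤ b 0 + b 1 + b 2 := by
    fin_cases i <;> simp <;> omega
  omega

/-- the substitution -/
noncomputable def sg : Fin 3 → MvPolynomial (Fin 3) k := ![X 1 * X 2, X 0 * X 2, X 0 * X 1]

/-- the quadratic map on points -/
def sp (q : Fin 3 → k) : Fin 3 → k := ![q 1 * q 2, q 0 * q 2, q 0 * q 1]

theorem eval_sg (q : Fin 3 → k) : (fun i => eval q (sg i : MvPolynomial (Fin 3) k)) = sp q := by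
  funext i
  fin_cases i <;> simp [sg, sp]

/-- a monomial with integral exponents, positive part -/
noncomputable def mon (m : Fin 3 → ℤ) : MvPolynomial (Fin 3) k :=
  X 0 ^ (m 0).toNat * X 1 ^ (m 1).toNat * X 2 ^ (m 2).toNat

theorem eval_mon {q : Fin 3 → k} (hq : ∀ i, q i ≠ 0) (m : Fin 3 → ℤ) :
    eval q (mon m : MvPolynomial (Fin 3) k) ≠ 0 := by
  simp [mon, hq 0, hq 1, hq 2]

theorem monomial_fin3 (a : Fin 3 →₀ ℕ) (c : k) :
    monomial a c = C c * (X 0 ^ a 0 * X 1 ^ a 1 * X 2 ^ a 2) := by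
  rw [monomial_eq, Finsupp.prod_fintype _ _ (by simp), Fin.prod_univ_three]

theorem mon_Tr {d : ℕ} {m : Fin 3 → ℤ} {G : MvPolynomial (Fin 3) k} (h : Cond d m G) :
    mon m * Tr d m G = mon (-m) * aeval sg G := by
  unfold Tr
  rw [TT_sum]
  conv_rhs => rw [G.as_sum]
  rw [map_sum, Finset.mul_sum, Finset.mul_sum]
  refine Finset.sum_congr rfl fun a ha => ?_
  have h3 := hom_sum h.1 ha
  rw [monomial_fin3, monomial_fin3, map_mul, map_mul, map_mul, map_pow, map_pow, map_pow]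
  simp only [aeval_X, sg, Matrix.cons_val_zero, Matrix.cons_val_one, Matrix.cons_val_two,
    Matrix.head_cons, Matrix.tail_cons, tau_apply, mon, Pi.neg_apply,
    algHom_C, algebraMap_eq, mul_pow]
  have e0 : (m 0).toNat + ((d : ℤ) - a 0 - m 0).toNat = (-m 0).toNat + a 1 + a 2 := by
    have := h.2 a ha 0; omega
  have e1 : (m 1).toNat + ((d : ℤ) - a 1 - m 1).toNat = (-m 1).toNat + a 0 + a 2 := by
    have := h.2 a ha 1; omega
  have e2 : (m 2).toNat + ((d : ℤ) - a 2 - m 2).toNat = (-m 2).toNat + a 0 + a 1 := by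
    have := h.2 a ha 2; omega
  refine Eq.trans (b := C (coeff a G) * ((X 0 ^ (m 0).toNat * X 0 ^ ((d : ℤ) - a 0 - m 0).toNat) *
        (X 1 ^ (m 1).toNat * X 1 ^ ((d : ℤ) - a 1 - m 1).toNat) *
        (X 2 ^ (m 2).toNat * X 2 ^ ((d : ℤ) - a 2 - m 2).toNat))) (by ring) ?_
  rw [← pow_add, ← pow_add, ← pow_add, e0, e1, e2]
  ring

/-- multiplicities of the transform at the points of the torus -/
theorem Tr_mem_torus {d : ℕ} {m : Fin 3 → ℤ} {G : MvPolynomial (Fin 3) k} (h : Cond d m G)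
    {q : Fin 3 → k} (hq : ∀ i, q i ≠ 0) {n : ℕ} (H : G ∈ mx (sp q) ^ n) :
    Tr d m G ∈ mx q ^ n := by
  have h1 : aeval sg G ∈ mx q ^ n := by
    apply subst_mem
    rwa [eval_sg]
  refine cancel (eval_mon hq m) ?_
  rw [mon_Tr h]
  exact Ideal.mul_mem_left _ _ h1

theorem eval_Tr {d : ℕ} {m : Fin 3 → ℤ} {G : MvPolynomial (Fin 3) k} (h : Cond d m G)
    {q : Fin 3 → k} (hq : ∀ i, q i ≠ 0) (H : eval (sp q) G = 0) : eval q (Tr d m G) = 0 := by
  have h1 := congrArg (eval q) (mon_Tr h)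
  rw [map_mul, map_mul, eval_aeval, eval_sg, H, mul_zero] at h1
  exact (mul_eq_zero.1 h1).resolve_left (eval_mon hq m)

end Pool.Agent.H469R10.ZD
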