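import Mathlib
import Pool.Agent.H469R10.ZD.Crem

set_option autoImplicit false

/-! The standard quadratic transformation on irreducible plane curves. -/

namespace Pool.Agent.H469R10.ZD

open MvPolynomial

variable {k : Type} [Field k]

/-- exponents of the substitution -/
noncomputable def sig (a : Fin 3 →₀ ℕ) : Fin 3 →₀ ℕ :=
  Finsupp.equivFunOnFinite.symm ![a 1 + a 2, a 0 + a 2, a 0 + a 1]

theorem sig_inj {a b : Fin 3 →₀ ℕ} (h : sig a = sig b) : a = b := by
  have h0 : a 1 + a 2 = b 1 + b 2 := by simpa [sig] using DFunLike.congr_fun h 0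
  have h1 : a 0 + a 2 = b 0 + b 2 := by simpa [sig] using DFunLike.congr_fun h 1
  have h2 : a 0 + a 1 = b 0 + b 1 := by simpa [sig] using DFunLike.congr_fun h 2
  ext i
  fin_cases i <;> simp <;> omega

theorem aeval_sg (G : MvPolynomial (Fin 3) k) : aeval sg G = TT sig G := by
  rw [TT_sum]
  conv_lhs => rw [G.as_sum]
  rw [map_sum]
  refine Finset.sum_congr rfl fun a _ => ?_
  rw [monomial_fin3, monomial_fin3, map_mul, map_mul, map_mul, map_pow, map_pow, map_pow]
  simp only [aeval_X, sg, Matrix.cons_val_zero, Matrix.cons_val_one, Matrix.cons_val_two,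
    Matrix.head_cons, Matrix.tail_cons, algHom_C, algebraMap_eq, mul_pow, sig,
    Finsupp.equivFunOnFinite_symm_apply_apply, pow_add]
  ring

theorem coeff_TT_sig (G : MvPolynomial (Fin 3) k) (a : Fin 3 →₀ ℕ) :
    coeff (sig a) (TT sig G) = coeff a G := by
  classical
  rw [TT_sum, coeff_sum]
  by_cases ha : a ∈ G.support
  · rw [Finset.sum_eq_single a]
    · simp
    · intro b _ hba
      rw [coeff_monomial, if_neg]
      exact fun heq => hba (sig_inj heq)
    · intro h'; exact absurd ha h'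
  · rw [Finset.sum_eq_zero]
    · exact (notMem_support_iff.1 ha).symm
    · intro b hb
      rw [coeff_monomial, if_neg]
      intro heq
      apply ha
      rw [← sig_inj heq]
      exact hb

/-- if the image of `Q` under the substitution is a monomial then so is `Q` -/
theorem monomial_of_sg {Q : MvPolynomial (Fin 3) k} {e : Fin 3 →₀ ℕ} {u : k}
    (h : aeval sg Q = monomial e u) (hQ : Q ≠ 0) : ∃ b c, Q = monomial b c := by
  classical
  obtain ⟨a, ha⟩ := support_nonempty.2 hQ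
  have key : ∀ b ∈ Q.support, sig b = e := by
    intro b hb
    by_contra hcon
    have h1 := coeff_TT_sig Q b
    rw [← aeval_sg, h, coeff_monomial, if_neg (fun h => hcon h.symm)] at h1
    exact mem_support_iff.1 hb h1.symm
  refine ⟨a, coeff a Q, ?_⟩
  conv_lhs => rw [Q.as_sum]
  rw [Finset.sum_eq_single a]
  · intro b hb hba
    exact absurd (sig_inj ((key b hb).trans (key a ha).symm)) hba
  · intro h'; exact absurd ha h'

theorem X_dvd_iff' {G : MvPolynomial (Fin 3) k} {i : Fin 3} :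
    ¬ X i ∣ G ↔ ∃ a ∈ G.support, a i = 0 := by
  classical
  constructor
  · intro h
    by_contra hcon
    push Not at hcon
    apply h
    rw [G.as_sum]
    refine Finset.dvd_sum fun a ha => ?_
    rw [X, monomial_dvd_monomial]
    refine ⟨Or.inr ?_, one_dvd _⟩
    rw [Finsupp.single_le_iff]
    exact Nat.one_le_iff_ne_zero.2 (hcon a ha)
  · rintro ⟨a, ha, h0⟩ ⟨Q, hQ⟩
    rw [mem_support_iff, hQ, coeff_X_mul', if_neg] at ha
    · exact ha rfl
    · rw [Finsupp.mem_support_iff, not_not]; exact h0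

/-- data of an irreducible curve which is not a coordinate line -/
structure IrrData (d : ℕ) (m : Fin 3 → ℕ) (G : MvPolynomial (Fin 3) k) : Prop where
  irr : Irreducible G
  hom : G.IsHomogeneous d
  mult : ∀ i, IsMult (Pi.single i (1 : k)) G (m i)
  ndvd : ∀ i, ¬ X i ∣ G

variable {d : ℕ} {m : Fin 3 → ℕ} {G : MvPolynomial (Fin 3) k}

theorem IrrData.cond (h : IrrData d m G) : Cond d (fun i => (m i : ℤ)) G :=
  cond_of_mem h.hom fun i => by
    simpa using (h.mult i).1

theorem IrrData.ex_top (h : IrrData d m G) (i : Fin 3) : ∃ a ∈ G.support, a i + m i = d := by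
  by_contra hcon
  push Not at hcon
  apply (h.mult i).2
  rw [mem_single h.hom]
  intro a ha
  have h1 := (mem_single h.hom i _).1 (h.mult i).1 a ha
  have h2 := hcon a ha
  omega

theorem IrrData.mm_nonneg (h : IrrData d m G) (i : Fin 3) : 0 ≤ mm d (fun i => (m i : ℤ)) i := by
  obtain ⟨a, ha, h0⟩ := X_dvd_iff'.1 (h.ndvd i)
  have h1 := h.cond.2 a ha
  have h2 := hom_sum h.hom ha
  have e0 : ((a 0 : ℕ) : ℤ) + m 0 ≤ d := h1 0
  have e1 : ((a 1 : ℕ) : ℤ) + m 1 ≤ d := h1 1
  have e2 : ((a 2 : ℕ) : ℤ) + m 2 ≤ d := h1 2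
  unfold mm
  fin_cases i <;> simp at h0 ⊢ <;> omega

theorem IrrData.mult_Tr (h : IrrData d m G) (i : Fin 3) :
    IsMult (Pi.single i (1 : k)) (Tr d (fun i => (m i : ℤ)) G)
      (mm d (fun i => (m i : ℤ)) i).toNat := by
  refine ⟨Tr_mem_single h.cond i, ?_⟩
  intro hcon
  rw [mem_single (Tr_hom h.cond)] at hcon
  obtain ⟨a, ha, h0⟩ := X_dvd_iff'.1 (h.ndvd i)
  have h1 := hcon _ (tau_mem h.cond ha)
  have h2 := h.mm_nonneg i
  rw [tau_apply, h0] at h1
  have h3 := h.cond.2 a ha i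
  rw [h0] at h3
  unfold dd mm at h1
  unfold mm at h2
  push_cast at h1 h3
  omega

theorem IrrData.ndvd_Tr (h : IrrData d m G) (i : Fin 3) :
    ¬ X i ∣ Tr d (fun i => (m i : ℤ)) G := by
  rw [X_dvd_iff']
  obtain ⟨a, ha, h0⟩ := h.ex_top i
  refine ⟨_, tau_mem h.cond ha, ?_⟩
  rw [tau_apply]
  omega

theorem mon_eq (m : Fin 3 → ℤ) : (mon m : MvPolynomial (Fin 3) k) =
    monomial (Finsupp.equivFunOnFinite.symm (fun i => (m i).toNat)) 1 := by
  rw [monomial_fin3, mon]
  simp [mul_assoc]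

theorem mon_neg {m : Fin 3 → ℤ} (h : ∀ i, 0 ≤ m i) : (mon (-m) : MvPolynomial (Fin 3) k) = 1 := by
  have h0 : (-m 0).toNat = 0 := by have := h 0; omega
  have h1 : (-m 1).toNat = 0 := by have := h 1; omega
  have h2 : (-m 2).toNat = 0 := by have := h 2; omega
  simp [mon, h0, h1, h2]

theorem IrrData.eq_back (h : IrrData d m G) :
    mon (mm d (fun i => (m i : ℤ))) * G = aeval sg (Tr d (fun i => (m i : ℤ)) G) := by
  have h1 := mon_Tr (Cond_Tr h.cond)
  have h2 : ((dd d (fun i => (m i : ℤ))).toNat : ℤ) = dd d (fun i => (m i : ℤ)) :=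
    Int.toNat_of_nonneg (dd_nonneg h.cond h.irr.ne_zero)
  rw [h2, Tr_Tr h.cond, mon_neg h.mm_nonneg, one_mul] at h1
  exact h1

theorem IrrData.irr_Tr (h : IrrData d m G) : Irreducible (Tr d (fun i => (m i : ℤ)) G) := by
  have hback := h.eq_back
  have hmon := mon_eq (k := k) (mm d (fun i => (m i : ℤ)))
  have hT0 : Tr d (fun i => (m i : ℤ)) G ≠ 0 := Tr_ne_zero h.cond h.irr.ne_zero
  -- the key step
  have key : ∀ P Q : MvPolynomial (Fin 3) k, Tr d (fun i => (m i : ℤ)) G = P * Q →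
      G ∣ aeval sg P → IsUnit Q := by
    intro P Q hPQ ⟨W, hW⟩
    have hQ0 : Q ≠ 0 := by
      rintro rfl
      rw [mul_zero] at hPQ
      exact hT0 hPQ
    have h1 : mon (mm d (fun i => (m i : ℤ))) * G = G * (W * aeval sg Q) := by
      rw [hback, hPQ, map_mul, hW]; ring
    have h2 : mon (mm d (fun i => (m i : ℤ))) = W * aeval sg Q := by
      have h3 : G * mon (mm d (fun i => (m i : ℤ))) = G * (W * aeval sg Q) := by
        rw [← h1]; ring
      exact mul_left_cancel₀ h.irr.ne_zero h3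
    have h4 : aeval sg Q ∣ monomial (Finsupp.equivFunOnFinite.symm
        (fun i => (mm d (fun i => (m i : ℤ)) i).toNat)) (1 : k) := by
      rw [← hmon, h2]; exact dvd_mul_left _ _
    rw [dvd_monomial_one_iff_exists] at h4
    obtain ⟨e, u, -, -, hu⟩ := h4
    obtain ⟨b, c, hbc⟩ := monomial_of_sg hu hQ0
    have hc : c ≠ 0 := by
      rintro rfl
      apply hQ0; rw [hbc]; simp
    have hb : b = 0 := by
      by_contra hb
      obtain ⟨i, hi⟩ := Finsupp.ne_iff.1 hb
      apply h.ndvd_Tr i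
      rw [hPQ, hbc]
      refine Dvd.dvd.mul_left ?_ _
      rw [X, monomial_dvd_monomial]
      refine ⟨Or.inr ?_, one_dvd _⟩
      rw [Finsupp.single_le_iff]
      exact Nat.one_le_iff_ne_zero.2 (by simpa using hi)
    rw [hbc, hb]
    exact (isUnit_iff_ne_zero.2 hc).map C
  refine ⟨?_, ?_⟩
  · intro hunit
    apply h.irr.not_isUnit
    have h1 : IsUnit (mon (mm d (fun i => (m i : ℤ))) * G) := by
      rw [hback]; exact hunit.map _
    exact isUnit_of_mul_isUnit_right h1
  · intro P Q hPQ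
    have h1 : G ∣ aeval sg P * aeval sg Q := by
      rw [← map_mul, ← hPQ, ← hback]
      exact dvd_mul_left _ _
    rcases (h.irr.prime).dvd_or_dvd h1 with h2 | h2
    · right; exact key P Q hPQ h2
    · left; exact key Q P (by rw [hPQ, mul_comm]) h2

theorem sp_sp (q : Fin 3 → k) : sp (sp q) = (q 0 * q 1 * q 2) • q := by
  funext i
  fin_cases i <;> simp [sp] <;> ring

/-- exact multiplicities at the points of the torus -/
theorem mult_Tr_torus (h : Cond d (fun i => (m i : ℤ)) G) (hG : G ≠ 0) {q : Fin 3 → k}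
    (hq : ∀ i, q i ≠ 0) {n : ℕ} (H : IsMult (sp q) G n) :
    IsMult q (Tr d (fun i => (m i : ℤ)) G) n := by
  refine ⟨Tr_mem_torus h hq H.1, fun hcon => H.2 ?_⟩
  have h2 : ((dd d (fun i => (m i : ℤ))).toNat : ℤ) = dd d (fun i => (m i : ℤ)) :=
    Int.toNat_of_nonneg (dd_nonneg h hG)
  have hc : q 0 * q 1 * q 2 ≠ 0 := mul_ne_zero (mul_ne_zero (hq 0) (hq 1)) (hq 2)
  have hsq : ∀ i, sp q i ≠ 0 := by
    intro i
    fin_cases i
    · simpa [sp] using ⟨hq 1, hq 2⟩
    · simpa [sp] using ⟨hq 0, hq 2⟩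
    · simpa [sp] using ⟨hq 0, hq 1⟩
  have h3 : Tr d (fun i => (m i : ℤ)) G ∈ mx (sp (sp q)) ^ (n + 1) := by
    rw [sp_sp]
    exact (scale_iff (Tr_hom h) hc).2 hcon
  have h4 := Tr_mem_torus (Cond_Tr h) hsq h3
  rw [h2, Tr_Tr h] at h4
  exact h4

end Pool.Agent.H469R10.ZD
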