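import Mathlib
import Pool.Agent.H469R10.ZD.CremIrr

set_option autoImplicit false

/-! The twelve points. -/

namespace Pool.Agent.H469R10.ZD

open MvPolynomial

/-- the index type of the points -/
abbrev Ix : Type := Fin 4 × Fin 3

variable {k : Type} [Field k]

/-- The twelve points: the coordinate points `(0, j)` and the points `(1 : ω^i : ω^j)`. -/
def pt (ω : k) (t : Ix) : Fin 3 → k :=
  if t.1 = 0 then Pi.single t.2 1 else ![1, ω ^ (t.2 : ℕ), ω ^ (2 * (t.2 : ℕ) + (t.1 : ℕ) + 2)]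

/-- permutation of the points, quadratic transformation -/
def nuS (t : Ix) : Ix := (![0, 1, 3, 2] t.1, -t.2)

/-- permutation of the points, diagonal matrix -/
def nuD (t : Ix) : Ix := (![0, 2, 3, 1] t.1, t.2)

/-- permutation of the points, Fourier matrix -/
def nuF (t : Ix) : Ix := (![1, 0, 3, 2] t.1, ![t.2, -t.2, -t.2, t.2 + 1] t.1)

theorem om3 {ω : k} (h : ω ^ 2 + ω + 1 = 0) : ω ^ 3 = 1 := by
  linear_combination (ω - 1) * h

theorem om_ne {ω : k} (h : ω ^ 2 + ω + 1 = 0) : ω ≠ 0 := by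
  rintro rfl
  norm_num at h

theorem pe {ω : k} (h : ω ^ 2 + ω + 1 = 0) {a b : ℕ} (hab : a % 3 = b % 3) : ω ^ a = ω ^ b := by
  rw [pow_eq_pow_mod a (om3 h), pow_eq_pow_mod b (om3 h), hab]

/-- exponents of the coordinates -/
def E (t : Ix) (i : Fin 3) : ℕ := ![0, (t.2 : ℕ), 2 * (t.2 : ℕ) + (t.1 : ℕ) + 2] i

theorem pt_eq {ω : k} {t : Ix} (ht : t.1 ≠ 0) (i : Fin 3) : pt ω t i = ω ^ E t i := by
  rw [pt, if_neg ht]
  fin_cases i <;> simp [E]

theorem pt_torus {ω : k} (h : ω ^ 2 + ω + 1 = 0) {t : Ix} (ht : t.1 ≠ 0) (i : Fin 3) :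
    pt ω t i ≠ 0 := by
  rw [pt_eq ht]
  exact pow_ne_zero _ (om_ne h)

theorem pt_zero (ω : k) (j : Fin 3) : pt ω (0, j) = Pi.single j 1 := by simp [pt]

theorem pt_ne {ω : k} (h : ω ^ 2 + ω + 1 = 0) (t : Ix) : pt ω t ≠ 0 := by
  by_cases ht : t.1 = 0
  · obtain ⟨T, j⟩ := t
    simp only at ht
    subst ht
    rw [pt_zero]
    simp
  · intro h0
    exact pt_torus h ht 0 (congrFun h0 0)

theorem decS1 : ∀ t : Ix, t.1 ≠ 0 → (nuS t).1 ≠ 0 := by decide

theorem decS2 : ∀ t : Ix, t.1 ≠ 0 → ∀ i : Fin 3,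
    ![E t 1 + E t 2, E t 0 + E t 2, E t 0 + E t 1] i % 3 = (E t 1 + E t 2 + E (nuS t) i) % 3 := by
  decide

/-- the quadratic map on the points of the torus -/
theorem sp_pt {ω : k} (h : ω ^ 2 + ω + 1 = 0) {t : Ix} (ht : t.1 ≠ 0) :
    ∃ c : k, c ≠ 0 ∧ sp (pt ω t) = c • pt ω (nuS t) := by
  refine ⟨ω ^ (E t 1 + E t 2), pow_ne_zero _ (om_ne h), ?_⟩
  have key : ∀ i, sp (pt ω t) i = ω ^ (![E t 1 + E t 2, E t 0 + E t 2, E t 0 + E t 1] i) := by
    intro i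
    fin_cases i <;> simp [sp, pt_eq ht, pow_add]
  funext i
  rw [key, Pi.smul_apply, pt_eq (decS1 t ht), smul_eq_mul, ← pow_add]
  exact pe h (decS2 t ht i)

/-- the matrices, as linear maps on the coordinates -/
def lin (M : Fin 3 → Fin 3 → k) (q : Fin 3 → k) : Fin 3 → k := fun i => ∑ j, M i j * q j

/-- the diagonal matrix -/
def MD (ω : k) : Fin 3 → Fin 3 → k := ![![1, 0, 0], ![0, 1, 0], ![0, 0, ω]]

/-- its inverse -/
def MD' (ω : k) : Fin 3 → Fin 3 → k := ![![1, 0, 0], ![0, 1, 0], ![0, 0, ω ^ 2]]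

/-- the Fourier matrix -/
def MF (ω : k) : Fin 3 → Fin 3 → k := ![![1, 1, 1], ![1, ω, ω ^ 2], ![1, ω ^ 2, ω]]

/-- its inverse -/
def MF' (ω : k) : Fin 3 → Fin 3 → k :=
  ![![3⁻¹, 3⁻¹, 3⁻¹], ![3⁻¹, 3⁻¹ * ω ^ 2, 3⁻¹ * ω], ![3⁻¹, 3⁻¹ * ω, 3⁻¹ * ω ^ 2]]

theorem MD_inv {ω : k} (h : ω ^ 2 + ω + 1 = 0) (q : Fin 3 → k) : lin (MD ω) (lin (MD' ω) q) = q := by
  have h3 := om3 h
  funext i
  fin_cases i <;> simp [lin, MD, MD', Fin.sum_univ_three]
  linear_combination q 2 * h3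

theorem MD_inv' {ω : k} (h : ω ^ 2 + ω + 1 = 0) (q : Fin 3 → k) :
    lin (MD' ω) (lin (MD ω) q) = q := by
  have h3 := om3 h
  funext i
  fin_cases i <;> simp [lin, MD, MD', Fin.sum_univ_three]
  linear_combination q 2 * h3

theorem MF_inv {ω : k} (h : ω ^ 2 + ω + 1 = 0) (h3 : (3 : k) ≠ 0) (q : Fin 3 → k) :
    lin (MF ω) (lin (MF' ω) q) = q := by
  have h9 : (3 : k) * 3⁻¹ = 1 := mul_inv_cancel₀ h3
  have e3 := om3 h
  funext i
  fin_cases i <;> simp [lin, MF, MF', Fin.sum_univ_three]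
  · linear_combination q 0 * h9 + (3⁻¹ * (q 1 + q 2)) * h
  · linear_combination q 1 * h9 + (3⁻¹ * (q 0 + (ω ^ 2 - ω + 1) * q 2)) * h + 3⁻¹ * 2 * q 1 * e3
  · linear_combination q 2 * h9 + (3⁻¹ * (q 0 + (ω ^ 2 - ω + 1) * q 1)) * h + 3⁻¹ * 2 * q 2 * e3

theorem MF_inv' {ω : k} (h : ω ^ 2 + ω + 1 = 0) (h3 : (3 : k) ≠ 0) (q : Fin 3 → k) :
    lin (MF' ω) (lin (MF ω) q) = q := by
  have h9 : (3 : k) * 3⁻¹ = 1 := mul_inv_cancel₀ h3
  have e3 := om3 h
  funext i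
  fin_cases i <;> simp [lin, MF, MF', Fin.sum_univ_three]
  · linear_combination q 0 * h9 + (3⁻¹ * (q 1 + q 2)) * h
  · linear_combination q 1 * h9 + (3⁻¹ * (q 0 + (ω ^ 2 - ω + 1) * q 2)) * h + 3⁻¹ * 2 * q 1 * e3
  · linear_combination q 2 * h9 + (3⁻¹ * (q 0 + (ω ^ 2 - ω + 1) * q 1)) * h + 3⁻¹ * 2 * q 2 * e3

theorem decD1 : ∀ t : Ix, t.1 ≠ 0 → (nuD t).1 ≠ 0 := by decide

theorem decD2 : ∀ t : Ix, t.1 ≠ 0 → ∀ i : Fin 3,
    (E t i + ![0, 0, 1] i) % 3 = (E (nuD t) i) % 3 := by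
  decide

theorem MD_pt {ω : k} (h : ω ^ 2 + ω + 1 = 0) (t : Ix) :
    ∃ c : k, c ≠ 0 ∧ lin (MD ω) (pt ω t) = c • pt ω (nuD t) := by
  have h0 := om_ne h
  by_cases ht : t.1 = 0
  · obtain ⟨T, j⟩ := t
    simp only at ht
    subst ht
    have e : nuD (0, j) = (0, j) := by revert j; decide
    rw [e, pt_zero]
    refine ⟨MD ω j j, ?_, ?_⟩
    · fin_cases j <;> simp [MD, h0]
    · funext i
      fin_cases j <;> fin_cases i <;> simp [MD, lin, Fin.sum_univ_three]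
  · refine ⟨1, one_ne_zero, ?_⟩
    have key : ∀ i, lin (MD ω) (pt ω t) i = ω ^ (E t i + ![0, 0, 1] i) := by
      intro i
      fin_cases i <;> simp [lin, MD, Fin.sum_univ_three, pt_eq ht, pow_succ, mul_comm]
    funext i
    rw [key, Pi.smul_apply, pt_eq (decD1 t ht), smul_eq_mul, one_mul]
    exact pe h (decD2 t ht i)

/-- equality of the exponents modulo 3 up to a permutation -/
def PermC (x y : Fin 3 → ℕ) : Prop :=
  (x 0 % 3 = y 0 % 3 ∧ x 1 % 3 = y 1 % 3 ∧ x 2 % 3 = y 2 % 3) ∨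
  (x 0 % 3 = y 0 % 3 ∧ x 1 % 3 = y 2 % 3 ∧ x 2 % 3 = y 1 % 3) ∨
  (x 0 % 3 = y 1 % 3 ∧ x 1 % 3 = y 0 % 3 ∧ x 2 % 3 = y 2 % 3) ∨
  (x 0 % 3 = y 1 % 3 ∧ x 1 % 3 = y 2 % 3 ∧ x 2 % 3 = y 0 % 3) ∨
  (x 0 % 3 = y 2 % 3 ∧ x 1 % 3 = y 0 % 3 ∧ x 2 % 3 = y 1 % 3) ∨
  (x 0 % 3 = y 2 % 3 ∧ x 1 % 3 = y 1 % 3 ∧ x 2 % 3 = y 0 % 3)

instance (x y : Fin 3 → ℕ) : Decidable (PermC x y) := by unfold PermC; infer_instance

theorem sum_perm {ω : k} (h : ω ^ 2 + ω + 1 = 0) {x y : Fin 3 → ℕ} (hp : PermC x y) :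
    ω ^ x 0 + ω ^ x 1 + ω ^ x 2 = ω ^ y 0 + ω ^ y 1 + ω ^ y 2 := by
  rcases hp with ⟨a, b, c⟩ | ⟨a, b, c⟩ | ⟨a, b, c⟩ | ⟨a, b, c⟩ | ⟨a, b, c⟩ | ⟨a, b, c⟩ <;>
    rw [pe h a, pe h b, pe h c] <;> ring

theorem lin_MF {ω : k} (h : ω ^ 2 + ω + 1 = 0) {t : Ix} (ht : t.1 ≠ 0) (a : Fin 3) :
    lin (MF ω) (pt ω t) a = ω ^ E t 0 + ω ^ ((a : ℕ) + E t 1) + ω ^ (2 * (a : ℕ) + E t 2) := by
  have e3 := om3 h
  fin_cases a
  · simp [lin, MF, Fin.sum_univ_three, pt_eq ht]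
  · simp [lin, MF, Fin.sum_univ_three, pt_eq ht, pow_add]
  · simp [lin, MF, Fin.sum_univ_three, pt_eq ht, pow_add]
    left
    linear_combination (-ω) * e3

theorem decF1 : ∀ t : Ix, t.1 = 2 ∨ t.1 = 3 → (nuF t).1 ≠ 0 := by decide

theorem decF2 : ∀ t : Ix, t.1 = 2 ∨ t.1 = 3 → ∀ a : Fin 3,
    PermC ![E t 0, (a : ℕ) + E t 1, 2 * (a : ℕ) + E t 2]
      ![E t 0 + E (nuF t) a, E t 1 + E (nuF t) a, E t 2 + E (nuF t) a] := by
  decide

theorem decF3 : ∀ j a : Fin 3, a = -j → PermC ![E (1, j) 0, (a : ℕ) + E (1, j) 1,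
    2 * (a : ℕ) + E (1, j) 2] ![0, 0, 0] := by decide

theorem decF4 : ∀ j a : Fin 3, a ≠ -j → PermC ![E (1, j) 0, (a : ℕ) + E (1, j) 1,
    2 * (a : ℕ) + E (1, j) 2] ![0, 1, 2] := by decide

theorem MF_pt {ω : k} (h : ω ^ 2 + ω + 1 = 0) (h3 : (3 : k) ≠ 0) (t : Ix) :
    ∃ c : k, c ≠ 0 ∧ lin (MF ω) (pt ω t) = c • pt ω (nuF t) := by
  have h0 := om_ne h
  have e3 := om3 h
  by_cases ht : t.1 = 2 ∨ t.1 = 3
  · have ht0 : t.1 ≠ 0 := by rcases ht with ht | ht <;> rw [ht] <;> decide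
    have key : lin (MF ω) (pt ω t) = (ω ^ E t 0 + ω ^ E t 1 + ω ^ E t 2) • pt ω (nuF t) := by
      funext a
      rw [lin_MF h ht0, Pi.smul_apply, pt_eq (decF1 t ht), smul_eq_mul, add_mul, add_mul,
        ← pow_add, ← pow_add, ← pow_add]
      exact sum_perm h (decF2 t ht a)
    refine ⟨_, ?_, key⟩
    intro hc
    rw [hc, zero_smul] at key
    have h1 := MF_inv' h h3 (pt ω t)
    rw [key] at h1
    apply pt_ne h t
    rw [← h1]
    funext i
    simp [lin]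
  · obtain ⟨T, j⟩ := t
    simp only at ht
    have hT : T = 0 ∨ T = 1 := by revert T; decide
    rcases hT with rfl | rfl
    · refine ⟨1, one_ne_zero, ?_⟩
      rw [pt_zero, one_smul]
      funext i
      fin_cases j <;> fin_cases i <;>
        simp [lin, MF, pt, nuF, Fin.sum_univ_three] <;>
        first
          | linear_combination (-1 : k) * e3
          | linear_combination (-ω : k) * e3
          | linear_combination (-ω ^ 2 : k) * e3
          | linear_combination (-ω * (ω ^ 3 + 1) : k) * e3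
    · refine ⟨3, h3, ?_⟩
      have e : nuF (1, j) = (0, -j) := by revert j; decide
      rw [e, pt_zero]
      funext a
      rw [lin_MF h (show ((1 : Fin 4), j).1 ≠ 0 from one_ne_zero)]
      by_cases ha : a = -j
      · have h1 := sum_perm h (decF3 j a ha)
        simp only [Matrix.cons_val_zero, Matrix.cons_val_one, Matrix.cons_val_two,
          Matrix.head_cons, Matrix.tail_cons] at h1
        rw [h1, ha]
        simp
        norm_num
      · have h1 := sum_perm h (decF4 j a ha)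
        simp only [Matrix.cons_val_zero, Matrix.cons_val_one, Matrix.cons_val_two,
          Matrix.head_cons, Matrix.tail_cons] at h1
        rw [h1, Pi.smul_apply, Pi.single_eq_of_ne ha]
        simp
        linear_combination h

theorem om_inj {ω : k} (h : ω ^ 2 + ω + 1 = 0) (h3 : (3 : k) ≠ 0) {a b : ℕ}
    (hab : ω ^ a = ω ^ b) : a % 3 = b % 3 := by
  have h0 := om_ne h
  have hw1 : ω ≠ 1 := by
    rintro rfl
    apply h3
    linear_combination h
  have hw2 : ω ^ 2 ≠ 1 := by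
    intro hc
    have hω : ω = -2 := by linear_combination h - hc
    rw [hω] at hc
    apply h3
    linear_combination hc
  have hw3 : ω ^ 2 ≠ ω := by
    intro hc
    apply hw1
    have : ω * (ω - 1) = 0 := by linear_combination hc
    rcases mul_eq_zero.1 this with h4 | h4
    · exact absurd h4 h0
    · linear_combination h4
  rw [pow_eq_pow_mod a (om3 h), pow_eq_pow_mod b (om3 h)] at hab
  have ha : a % 3 < 3 := Nat.mod_lt _ (by norm_num)
  have hb : b % 3 < 3 := Nat.mod_lt _ (by norm_num)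
  generalize a % 3 = x at *
  generalize b % 3 = y at *
  interval_cases x <;> interval_cases y <;> simp only [pow_zero, pow_one] at hab
  all_goals first
    | rfl
    | exact absurd hab.symm hw1
    | exact absurd hab.symm hw2
    | exact absurd hab hw1
    | exact absurd hab.symm hw3
    | exact absurd hab hw2
    | exact absurd hab hw3

theorem dec1 : ∀ i : Fin 3, i + 1 ≠ i := by decide

theorem decE : ∀ s t : Ix, s.1 ≠ 0 → t.1 ≠ 0 → (∀ i, E s i % 3 = E t i % 3) → s = t := by decide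

/-- the points are pairwise not proportional -/
theorem pt_distinct {ω : k} (h : ω ^ 2 + ω + 1 = 0) (h3 : (3 : k) ≠ 0) {s t : Ix} (hst : s ≠ t)
    (c : k) : pt ω s ≠ c • pt ω t := by
  intro heq
  by_cases hs : s.1 = 0
  · obtain ⟨S, i⟩ := s
    simp only at hs
    subst hs
    by_cases ht : t.1 = 0
    · obtain ⟨T, j⟩ := t
      simp only at ht
      subst ht
      have hij : i ≠ j := fun hh => hst (by rw [hh])
      have h1 := congrFun heq i
      rw [pt_zero, pt_zero, Pi.smul_apply, Pi.single_eq_same, Pi.single_eq_of_ne hij] at h1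
      simp at h1
    · obtain ⟨i', hi'⟩ : ∃ i' : Fin 3, i' ≠ i := ⟨i + 1, dec1 i⟩
      have h1 := congrFun heq i'
      rw [pt_zero, Pi.smul_apply, Pi.single_eq_of_ne hi'] at h1
      have h2 : c = 0 := by
        rcases mul_eq_zero.1 h1.symm with h2 | h2
        · exact h2
        · exact absurd h2 (pt_torus h ht i')
      rw [h2, zero_smul] at heq
      exact pt_ne h _ heq
  · by_cases ht : t.1 = 0
    · obtain ⟨T, j⟩ := t
      simp only at ht
      subst ht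
      obtain ⟨i', hi'⟩ : ∃ i' : Fin 3, i' ≠ j := ⟨j + 1, dec1 j⟩
      have h1 := congrFun heq i'
      rw [pt_zero, Pi.smul_apply, Pi.single_eq_of_ne hi', smul_zero] at h1
      exact pt_torus h hs i' h1
    · have h1 := congrFun heq 0
      rw [Pi.smul_apply, pt_eq hs, pt_eq ht] at h1
      have hc : c = 1 := by simpa [E] using h1.symm
      rw [hc, one_smul] at heq
      apply hst
      refine decE s t hs ht fun i => ?_
      apply om_inj h h3
      rw [← pt_eq hs, ← pt_eq ht, heq]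

end Pool.Agent.H469R10.ZD
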