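import Mathlib
import Pool.Agent.H469R10.ZD.Points

set_option autoImplicit false

/-! Transport of the classes under the birational maps. -/

namespace Pool.Agent.H469R10.ZD

open MvPolynomial

variable {k : Type} [Field k] {ι : Type}

theorem exists_eval_ne [Infinite k] {σ : Type} {Φ : MvPolynomial σ k} (h : Φ ≠ 0) :
    ∃ w : σ → k, eval w Φ ≠ 0 := by
  by_contra hcon
  push Not at hcon
  apply h
  apply MvPolynomial.funext
  intro w
  rw [hcon w, map_zero]

theorem eval_rename' {b : ℕ} (x : Fin b → Fin 3 → k) (j : Fin b) (δ : MvPolynomial (Fin 3) k) :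
    eval (fun ij : Fin b × Fin 3 => x ij.1 ij.2) (rename (fun i => (j, i)) δ) = eval (x j) δ := by
  rw [eval_rename]
  rfl

theorem eval_aeval_gen {σ τ : Type} (q : τ → k) (Φ : σ → MvPolynomial τ k)
    (G : MvPolynomial σ k) :
    eval q (aeval Φ G) = eval (fun i => eval q (Φ i)) G := by
  rw [← MvPolynomial.coe_aeval_eq_eval, ← MvPolynomial.coe_aeval_eq_eval]
  simp only [RingHom.coe_coe, ← AlgHom.comp_apply, comp_aeval]

theorem gen_transport [Infinite k] {p : ι → Fin 3 → k} {c c' : ℤ × (ι → ℤ)}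
    (s : Fin 3 → MvPolynomial (Fin 3) k) (δ θ : MvPolynomial (Fin 3) k) (hθ : θ ≠ 0)
    (hdom : ∀ w, eval w θ ≠ 0 → ∃ y, eval y δ ≠ 0 ∧ (fun i => eval y (s i)) = w)
    (hcyc : ∀ G e, IsCycle p G e c → ∃ G' e', IsCycle p G' e' c' ∧
      ∀ y, eval y δ ≠ 0 → eval (fun i => eval y (s i)) G = 0 → eval y G' = 0)
    {b : ℕ} (h : GenPts p b c) : GenPts p b c' := by
  obtain ⟨Φ, hΦ, hx⟩ := h
  set Φ' : MvPolynomial (Fin b × Fin 3) k := (∏ j : Fin b, rename (fun i => (j, i)) δ) *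
    aeval (fun ji : Fin b × Fin 3 => rename (fun i => (ji.1, i)) (s ji.2)) Φ with hΦ'
  have hev : ∀ y : Fin b → Fin 3 → k, eval (fun ij : Fin b × Fin 3 => y ij.1 ij.2) Φ' =
      (∏ j, eval (y j) δ) * eval (fun ij : Fin b × Fin 3 => eval (y ij.1) (s ij.2)) Φ := by
    intro y
    rw [hΦ', map_mul, map_prod, eval_aeval_gen]
    simp only [eval_rename']
  refine ⟨Φ', ?_, ?_⟩
  · have hΘ : (∏ j : Fin b, rename (fun i => (j, i)) θ) * Φ ≠ 0 := by
      refine mul_ne_zero (Finset.prod_ne_zero_iff.2 fun j _ => ?_) hΦ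
      intro h0
      apply hθ
      have hinj : Function.Injective (fun i : Fin 3 => (j, i)) := fun a b hab => by
        simpa using hab
      exact rename_injective _ hinj (by rw [h0, map_zero])
    obtain ⟨w, hw⟩ := exists_eval_ne hΘ
    rw [map_mul, map_prod] at hw
    have hw1 := left_ne_zero_of_mul hw
    have hw2 := right_ne_zero_of_mul hw
    have hw3 : ∀ j : Fin b, eval (fun i => w (j, i)) θ ≠ 0 := by
      intro j
      have := Finset.prod_ne_zero_iff.1 hw1 j (Finset.mem_univ j)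
      rw [eval_rename] at this
      exact this
    choose y hy1 hy2 using fun j => hdom _ (hw3 j)
    intro h0
    have h1 := hev y
    rw [h0, map_zero] at h1
    have h2 : (fun ij : Fin b × Fin 3 => eval (y ij.1) (s ij.2)) = w := by
      funext ij
      exact congrFun (hy2 ij.1) ij.2
    rw [h2] at h1
    exact mul_ne_zero (Finset.prod_ne_zero_iff.2 fun j _ => hy1 j) hw2 h1.symm
  · intro y hy
    rw [hev] at hy
    have hy1 := left_ne_zero_of_mul hy
    have hy2 := right_ne_zero_of_mul hy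
    obtain ⟨G, e, hG, hv⟩ := hx (fun j i => eval (y j) (s i)) hy2
    obtain ⟨G', e', hG', hv'⟩ := hcyc G e hG
    refine ⟨G', e', hG', fun j => hv' (y j) ?_ (hv j)⟩
    exact Finset.prod_ne_zero_iff.1 hy1 j (Finset.mem_univ j)

theorem cov_transport [Infinite k] {p : ι → Fin 3 → k} {c c' : ℤ × (ι → ℤ)}
    (s : Fin 3 → MvPolynomial (Fin 3) k) (δ θ : MvPolynomial (Fin 3) k) (hθ : θ ≠ 0)
    (hdom : ∀ w, eval w θ ≠ 0 → ∃ y, eval y δ ≠ 0 ∧ (fun i => eval y (s i)) = w)
    (hcur : ∀ G y, IsCycle p G 0 c → Irreducible G → eval y δ ≠ 0 →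
      eval (fun i => eval y (s i)) G = 0 →
      ∃ G', IsCycle p G' 0 c' ∧ Irreducible G' ∧ eval y G' = 0)
    (h : Covering p c) : Covering p c' := by
  obtain ⟨Φ, hΦ, hx⟩ := h
  have hev : ∀ y : Fin 3 → k, eval y (δ * aeval s Φ) =
      eval y δ * eval (fun i => eval y (s i)) Φ := by
    intro y
    rw [map_mul, eval_aeval_gen]
  refine ⟨δ * aeval s Φ, ?_, ?_⟩
  · obtain ⟨w, hw⟩ := exists_eval_ne (mul_ne_zero hθ hΦ)
    rw [map_mul] at hw
    obtain ⟨y, hy1, hy2⟩ := hdom w (left_ne_zero_of_mul hw)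
    intro h0
    have h1 := hev y
    rw [h0, map_zero, hy2] at h1
    exact mul_ne_zero hy1 (right_ne_zero_of_mul hw) h1.symm
  · intro y hy
    rw [hev] at hy
    obtain ⟨G, e, ⟨hG, hcase⟩, hv⟩ := hx _ (right_ne_zero_of_mul hy)
    rcases hcase with ⟨hirr, rfl⟩ | ⟨rfl, -⟩
    · obtain ⟨G', h1, h2, h3⟩ := hcur G y hG hirr (left_ne_zero_of_mul hy) hv
      exact ⟨G', 0, ⟨h1, Or.inl ⟨h2, rfl⟩⟩, h3⟩
    · rw [map_one] at hv
      exact absurd hv one_ne_zero

/-! ### class maps -/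

/-- the action of the quadratic transformation on classes -/
def mapS (A : Type) [CommRing A] : A × (Ix → A) →ₗ[A] A × (Ix → A) where
  toFun c := (2 * c.1 - (c.2 (0, 0) + c.2 (0, 1) + c.2 (0, 2)),
    fun t => if t.1 = 0 then c.1 - (c.2 (0, 0) + c.2 (0, 1) + c.2 (0, 2)) + c.2 t
      else c.2 (nuS t))
  map_add' x y := by
    refine Prod.ext ?_ (funext fun t => ?_)
    · simp only [Prod.fst_add, Prod.snd_add, Pi.add_apply]; ring
    · simp only [Prod.fst_add, Prod.snd_add, Pi.add_apply]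
      split_ifs <;> ring
  map_smul' a x := by
    refine Prod.ext ?_ (funext fun t => ?_)
    · simp only [Prod.smul_fst, Prod.smul_snd, Pi.smul_apply, smul_eq_mul, RingHom.id_apply]; ring
    · simp only [Prod.smul_fst, Prod.smul_snd, Pi.smul_apply, smul_eq_mul, RingHom.id_apply]
      split_ifs <;> ring

/-- the action of a permutation of the points on classes -/
def mapN (A : Type) [CommRing A] (ν : Ix → Ix) : A × (Ix → A) →ₗ[A] A × (Ix → A) where
  toFun c := (c.1, fun t => c.2 (ν t))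
  map_add' _ _ := rfl
  map_smul' _ _ := rfl

theorem mapS_fst (A : Type) [CommRing A] (c : A × (Ix → A)) :
    (mapS A c).1 = 2 * c.1 - (c.2 (0, 0) + c.2 (0, 1) + c.2 (0, 2)) := rfl

theorem mapS_snd0 (A : Type) [CommRing A] (c : A × (Ix → A)) (j : Fin 3) :
    (mapS A c).2 (0, j) = c.1 - (c.2 (0, 0) + c.2 (0, 1) + c.2 (0, 2)) + c.2 (0, j) := by
  simp [mapS]

theorem mapS_snd (A : Type) [CommRing A] (c : A × (Ix → A)) {t : Ix} (ht : t.1 ≠ 0) :
    (mapS A c).2 t = c.2 (nuS t) := by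
  simp [mapS, ht]

/-! ### the quadratic transformation -/

section quad

variable {ω : k} (h : ω ^ 2 + ω + 1 = 0)

theorem sp_surj [IsAlgClosed k] {w : Fin 3 → k} (hw : ∀ i, w i ≠ 0) :
    ∃ y : Fin 3 → k, (∀ i, y i ≠ 0) ∧ sp y = w := by
  obtain ⟨z, hz⟩ := IsAlgClosed.exists_pow_nat_eq (w 1 * w 2 / w 0) (n := 2) (by norm_num)
  have hz0 : z ≠ 0 := by
    rintro rfl
    rw [zero_pow (by norm_num)] at hz
    exact div_ne_zero (mul_ne_zero (hw 1) (hw 2)) (hw 0) hz.symm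
  have hz2 : z ^ 2 * w 0 = w 1 * w 2 := by
    rw [hz]; field_simp [hw 0]
  refine ⟨![z, w 2 / z, w 1 / z], ?_, ?_⟩
  · intro i
    fin_cases i
    · simpa using hz0
    · simpa using ⟨hw 2, hz0⟩
    · simpa using ⟨hw 1, hz0⟩
  · funext i
    fin_cases i
    · simp only [sp, Fin.zero_eta, Matrix.cons_val_zero, Matrix.cons_val_one,
        Matrix.cons_val_two, Matrix.head_cons, Matrix.tail_cons]
      field_simp
      linear_combination -hz2
    · simp only [sp, Fin.mk_one, Matrix.cons_val_zero, Matrix.cons_val_one,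
        Matrix.cons_val_two, Matrix.head_cons, Matrix.tail_cons]
      field_simp
    · simp [sp]
      field_simp

theorem eval_XXX (y : Fin 3 → k) :
    eval y (X 0 * X 1 * X 2 : MvPolynomial (Fin 3) k) ≠ 0 ↔ ∀ i, y i ≠ 0 := by
  simp only [map_mul, eval_X, mul_ne_zero_iff]
  constructor
  · rintro ⟨⟨h0, h1⟩, h2⟩ i
    fin_cases i
    · exact h0
    · exact h1
    · exact h2
  · intro hh
    exact ⟨⟨hh 0, hh 1⟩, hh 2⟩

theorem dom_S [IsAlgClosed k] (w : Fin 3 → k)
    (hw : eval w (X 0 * X 1 * X 2 : MvPolynomial (Fin 3) k) ≠ 0) :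
    ∃ y, eval y (X 0 * X 1 * X 2 : MvPolynomial (Fin 3) k) ≠ 0 ∧
      (fun i => eval y (sg i : MvPolynomial (Fin 3) k)) = w := by
  rw [eval_XXX] at hw
  obtain ⟨y, hy, hy2⟩ := sp_surj hw
  exact ⟨y, (eval_XXX y).2 hy, by rw [eval_sg, hy2]⟩

include h

theorem cyc_S {G : MvPolynomial (Fin 3) k} {e : Ix → ℕ} {c : ℤ × (Ix → ℤ)}
    (H : IsCycle (pt ω) G e c) : ∃ G' e', IsCycle (pt ω) G' e' (mapS ℤ c) ∧
      ∀ y, eval y (X 0 * X 1 * X 2 : MvPolynomial (Fin 3) k) ≠ 0 →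
        eval (fun i => eval y (sg i : MvPolynomial (Fin 3) k)) G = 0 → eval y G' = 0 := by
  obtain ⟨hG, ⟨d, hd, hcd⟩, hm⟩ := exists_cycle_iff.1 ⟨e, H⟩
  set m : Fin 3 → ℤ := fun i => c.2 (0, i) with hmdef
  have hcond : Cond d m G := by
    refine cond_of_mem hd fun i => ?_
    have := hm (0, i)
    rwa [pt_zero] at this
  have hdd := dd_nonneg hcond hG
  have key : ∃ e', IsCycle (pt ω) (Tr d m G) e' (mapS ℤ c) := by
    rw [exists_cycle_iff]
    refine ⟨Tr_ne_zero hcond hG, ⟨(dd d m).toNat, Tr_hom hcond, ?_⟩, ?_⟩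
    · rw [mapS_fst, hcd, Int.toNat_of_nonneg hdd]
      rfl
    · intro t
      by_cases ht : t.1 = 0
      · obtain ⟨T, j⟩ := t
        simp only at ht
        subst ht
        rw [pt_zero, mapS_snd0, hcd]
        exact Tr_mem_single hcond j
      · rw [mapS_snd ℤ c ht]
        apply Tr_mem_torus hcond (pt_torus h ht)
        obtain ⟨a, ha, hsp⟩ := sp_pt h ht
        rw [hsp]
        exact (scale_iff hd ha).2 (hm _)
  obtain ⟨e', he'⟩ := key
  refine ⟨Tr d m G, e', he', fun y hy hy2 => ?_⟩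
  rw [eval_sg] at hy2
  exact eval_Tr hcond ((eval_XXX y).1 hy) hy2

theorem cur_S {G : MvPolynomial (Fin 3) k} {c : ℤ × (Ix → ℤ)} (y : Fin 3 → k)
    (H : IsCycle (pt ω) G 0 c) (hirr : Irreducible G)
    (hy : eval y (X 0 * X 1 * X 2 : MvPolynomial (Fin 3) k) ≠ 0)
    (hy2 : eval (fun i => eval y (sg i : MvPolynomial (Fin 3) k)) G = 0) :
    ∃ G', IsCycle (pt ω) G' 0 (mapS ℤ c) ∧ Irreducible G' ∧ eval y G' = 0 := by
  obtain ⟨hG, ⟨d, hd, hcd⟩, hm⟩ := H
  choose n hn hcn using hm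
  rw [eval_XXX] at hy
  rw [eval_sg] at hy2
  have hspy : ∀ i, sp y i ≠ 0 := by
    intro i
    fin_cases i
    · simpa [sp] using ⟨hy 1, hy 2⟩
    · simpa [sp] using ⟨hy 0, hy 2⟩
    · simpa [sp] using ⟨hy 0, hy 1⟩
  have hI : IrrData d (fun i => n (0, i)) G := by
    refine ⟨hirr, hd, fun i => ?_, fun i hdvd => ?_⟩
    · have := hn (0, i)
      rwa [pt_zero] at this
    · obtain ⟨W, hW⟩ := hdvd
      have hXi : ¬ IsUnit (X i : MvPolynomial (Fin 3) k) := by
        intro hu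
        have h1 : IsUnit (eval (0 : Fin 3 → k) (X i)) := hu.map _
        simp at h1
      have hWu : IsUnit W := (hirr.isUnit_or_isUnit hW).resolve_left hXi
      have h2 : IsUnit (eval (sp y) W) := hWu.map _
      rw [hW, map_mul, eval_X] at hy2
      exact mul_ne_zero (hspy i) h2.ne_zero hy2
  have hcond := hI.cond
  have hdd := dd_nonneg hcond hG
  have hc0 : ∀ j, c.2 (0, j) = (n (0, j) : ℤ) := by
    intro j
    have := hcn (0, j)
    simpa using this
  refine ⟨Tr d (fun i => (n (0, i) : ℤ)) G, ⟨Tr_ne_zero hcond hG, ⟨_, Tr_hom hcond, ?_⟩, ?_⟩,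
    hI.irr_Tr, eval_Tr hcond hy hy2⟩
  · rw [mapS_fst, hcd, Int.toNat_of_nonneg hdd, hc0, hc0, hc0]
    rfl
  · intro t
    by_cases ht : t.1 = 0
    · obtain ⟨T, j⟩ := t
      simp only at ht
      subst ht
      refine ⟨(mm d (fun i => (n (0, i) : ℤ)) j).toNat, ?_, ?_⟩
      · rw [pt_zero]
        exact hI.mult_Tr j
      · rw [mapS_snd0, hcd, Int.toNat_of_nonneg (hI.mm_nonneg j), hc0, hc0, hc0, hc0]
        simp [mm]
    · refine ⟨n (nuS t), ?_, ?_⟩
      · apply mult_Tr_torus hcond hG (pt_torus h ht)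
        obtain ⟨a, ha, hsp⟩ := sp_pt h ht
        rw [hsp]
        exact (isMult_scale hd ha).2 (hn _)
      · rw [mapS_snd ℤ c ht, hcn]
        simp

end quad

end Pool.Agent.H469R10.ZD
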