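import Mathlib
import Pool.Agent.H469R10.ZD.Trans

set_option autoImplicit false

/-! Linear transformations of plane curves, and the maps of classes which preserve everything. -/

namespace Pool.Agent.H469R10.ZD

open MvPolynomial

variable {k : Type} [Field k]

/-- the linear forms of a matrix -/
noncomputable def lp (M : Fin 3 → Fin 3 → k) : Fin 3 → MvPolynomial (Fin 3) k :=
  fun i => ∑ j, C (M i j) * X j

theorem eval_lp (M : Fin 3 → Fin 3 → k) (q : Fin 3 → k) :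
    (fun i => eval q (lp M i)) = lin M q := by
  funext i
  simp [lp, lin]

theorem lp_hom (M : Fin 3 → Fin 3 → k) (i : Fin 3) : (lp M i).IsHomogeneous 1 := by
  refine IsHomogeneous.sum _ _ _ fun j _ => ?_
  have := (isHomogeneous_C (Fin 3) (M i j)).mul (isHomogeneous_X k j)
  simpa using this

theorem aeval_lp_lp [Infinite k] {M M' : Fin 3 → Fin 3 → k} (h : ∀ q, lin M (lin M' q) = q)
    (G : MvPolynomial (Fin 3) k) : aeval (lp M') (aeval (lp M) G) = G := by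
  apply MvPolynomial.funext
  intro q
  rw [eval_aeval, eval_aeval, eval_lp, eval_lp, h]

theorem mult_lin [Infinite k] {M M' : Fin 3 → Fin 3 → k} (h : ∀ q, lin M (lin M' q) = q)
    (h' : ∀ q, lin M' (lin M q) = q) {G : MvPolynomial (Fin 3) k} {q : Fin 3 → k} {n : ℕ}
    (H : IsMult (lin M q) G n) : IsMult q (aeval (lp M) G) n := by
  refine ⟨?_, fun hcon => H.2 ?_⟩
  · apply subst_mem
    rw [eval_lp]
    exact H.1
  · have h1 : aeval (lp M) G ∈ mx (fun i => eval (lin M q) (lp M' i)) ^ (n + 1) := by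
      rw [eval_lp, h']
      exact hcon
    have h2 := subst_mem _ h1
    rw [aeval_lp_lp h] at h2
    exact h2

theorem irr_lin [Infinite k] {M M' : Fin 3 → Fin 3 → k} (h : ∀ q, lin M (lin M' q) = q)
    (h' : ∀ q, lin M' (lin M q) = q) {G : MvPolynomial (Fin 3) k} (H : Irreducible G) :
    Irreducible (aeval (lp M) G) := by
  let e : MvPolynomial (Fin 3) k ≃+* MvPolynomial (Fin 3) k :=
    { toFun := fun G => aeval (lp M) G
      invFun := fun G => aeval (lp M') G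
      left_inv := fun G => aeval_lp_lp h G
      right_inv := fun G => aeval_lp_lp h' G
      map_mul' := fun a b => map_mul _ a b
      map_add' := fun a b => map_add _ a b }
  exact (MulEquiv.irreducible_iff e).2 H

section
variable [Infinite k] {ω : k} {M M' : Fin 3 → Fin 3 → k} {ν : Ix → Ix}

theorem cyc_lin_aux (h : ∀ q, lin M (lin M' q) = q)
    (h' : ∀ q, lin M' (lin M q) = q)
    (hν : ∀ t, ∃ c : k, c ≠ 0 ∧ lin M (pt ω t) = c • pt ω (ν t))
    {G : MvPolynomial (Fin 3) k} {e : Ix → ℕ} {c : ℤ × (Ix → ℤ)} (H : IsCycle (pt ω) G e c) :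
    IsCycle (pt ω) (aeval (lp M) G) (fun t => e (ν t)) (mapN ℤ ν c) := by
  obtain ⟨hG, ⟨d, hd, hcd⟩, hm⟩ := H
  refine ⟨?_, ⟨d, ?_, hcd⟩, fun t => ?_⟩
  · intro h0
    apply hG
    rw [← aeval_lp_lp h G, h0, map_zero]
  · have := hd.aeval (lp M) (lp_hom M)
    simpa using this
  · obtain ⟨m, hm1, hm2⟩ := hm (ν t)
    refine ⟨m, ?_, hm2⟩
    apply mult_lin h h'
    obtain ⟨a, ha, he⟩ := hν t
    rw [he]
    exact (isMult_scale hd ha).2 hm1

theorem cyc_lin (h : ∀ q, lin M (lin M' q) = q)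
    (h' : ∀ q, lin M' (lin M q) = q)
    (hν : ∀ t, ∃ c : k, c ≠ 0 ∧ lin M (pt ω t) = c • pt ω (ν t))
    {G : MvPolynomial (Fin 3) k} {e : Ix → ℕ} {c : ℤ × (Ix → ℤ)} (H : IsCycle (pt ω) G e c) :
    ∃ G' e', IsCycle (pt ω) G' e' (mapN ℤ ν c) ∧
      ∀ y, eval y (1 : MvPolynomial (Fin 3) k) ≠ 0 →
        eval (fun i => eval y (lp M i)) G = 0 → eval y G' = 0 := by
  refine ⟨_, _, cyc_lin_aux h h' hν H, fun y _ hy => ?_⟩
  rw [eval_aeval]
  exact hy

theorem cur_lin (h : ∀ q, lin M (lin M' q) = q)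
    (h' : ∀ q, lin M' (lin M q) = q)
    (hν : ∀ t, ∃ c : k, c ≠ 0 ∧ lin M (pt ω t) = c • pt ω (ν t))
    {G : MvPolynomial (Fin 3) k} {c : ℤ × (Ix → ℤ)} (y : Fin 3 → k)
    (H : IsCycle (pt ω) G 0 c) (hirr : Irreducible G)
    (_ : eval y (1 : MvPolynomial (Fin 3) k) ≠ 0)
    (hy2 : eval (fun i => eval y (lp M i)) G = 0) :
    ∃ G', IsCycle (pt ω) G' 0 (mapN ℤ ν c) ∧ Irreducible G' ∧ eval y G' = 0 := by
  refine ⟨_, cyc_lin_aux h h' hν H, irr_lin h h' hirr, ?_⟩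
  rw [eval_aeval]
  exact hy2

theorem dom_lin (h : ∀ q, lin M (lin M' q) = q) (w : Fin 3 → k)
    (_ : eval w (1 : MvPolynomial (Fin 3) k) ≠ 0) :
    ∃ y, eval y (1 : MvPolynomial (Fin 3) k) ≠ 0 ∧ (fun i => eval y (lp M i)) = w :=
  ⟨lin M' w, by simp, by rw [eval_lp, h]⟩

end

/-- maps of classes preserving the effective cycles through general points and the covering
families -/
structure Pres (p : Ix → Fin 3 → k) (φ : ℤ × (Ix → ℤ) →ₗ[ℤ] ℤ × (Ix → ℤ))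
    (ψ : ℝ × (Ix → ℝ) →ₗ[ℝ] ℝ × (Ix → ℝ)) : Prop where
  cast : ∀ c, toR (φ c) = ψ (toR c)
  gen : ∀ b c, GenPts p b c → GenPts p b (φ c)
  cov : ∀ c, Covering p c → Covering p (φ c)

theorem Pres.comp {p : Ix → Fin 3 → k} {φ φ' : ℤ × (Ix → ℤ) →ₗ[ℤ] ℤ × (Ix → ℤ)}
    {ψ ψ' : ℝ × (Ix → ℝ) →ₗ[ℝ] ℝ × (Ix → ℝ)} (h : Pres p φ ψ) (h' : Pres p φ' ψ') :
    Pres p (φ ∘ₗ φ') (ψ ∘ₗ ψ') :=
  ⟨fun c => by rw [LinearMap.comp_apply, LinearMap.comp_apply, h.cast, h'.cast],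
    fun b c hc => h.gen b _ (h'.gen b c hc), fun c hc => h.cov _ (h'.cov c hc)⟩

theorem pres_S [IsAlgClosed k] {ω : k} (h : ω ^ 2 + ω + 1 = 0) :
    Pres (pt ω) (mapS ℤ) (mapS ℝ) := by
  have hinf : Infinite k := IsAlgClosed.instInfinite
  have hX : (X 0 * X 1 * X 2 : MvPolynomial (Fin 3) k) ≠ 0 :=
    mul_ne_zero (mul_ne_zero (X_ne_zero _) (X_ne_zero _)) (X_ne_zero _)
  refine ⟨fun c => ?_, fun b c hc => ?_, fun c hc => ?_⟩
  · refine Prod.ext ?_ (funext fun t => ?_)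
    · simp [toR, mapS]
    · by_cases ht : t.1 = 0
      · simp [toR, mapS, ht]
      · simp [toR, mapS, ht]
  · exact gen_transport sg (X 0 * X 1 * X 2) (X 0 * X 1 * X 2) hX dom_S
      (fun G e hG => cyc_S h hG) hc
  · exact cov_transport sg (X 0 * X 1 * X 2) (X 0 * X 1 * X 2) hX dom_S
      (fun G y hG hirr hy hy2 => cur_S h y hG hirr hy hy2) hc

theorem pres_N [IsAlgClosed k] {ω : k} {M M' : Fin 3 → Fin 3 → k} {ν : Ix → Ix}
    (h : ∀ q, lin M (lin M' q) = q) (h' : ∀ q, lin M' (lin M q) = q)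
    (hν : ∀ t, ∃ c : k, c ≠ 0 ∧ lin M (pt ω t) = c • pt ω (ν t)) :
    Pres (pt ω) (mapN ℤ ν) (mapN ℝ ν) := by
  have hinf : Infinite k := IsAlgClosed.instInfinite
  refine ⟨fun c => rfl, fun b c hc => ?_, fun c hc => ?_⟩
  · exact gen_transport (lp M) 1 1 one_ne_zero (dom_lin h)
      (fun G e hG => cyc_lin h h' hν hG) hc
  · exact cov_transport (lp M) 1 1 one_ne_zero (dom_lin h)
      (fun G y hG hirr hy hy2 => cur_lin h h' hν y hG hirr hy hy2) hc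

theorem pres_D [IsAlgClosed k] {ω : k} (h : ω ^ 2 + ω + 1 = 0) :
    Pres (pt ω) (mapN ℤ nuD) (mapN ℝ nuD) :=
  pres_N (MD_inv h) (MD_inv' h) (MD_pt h)

theorem pres_F [IsAlgClosed k] {ω : k} (h : ω ^ 2 + ω + 1 = 0) (h3 : (3 : k) ≠ 0) :
    Pres (pt ω) (mapN ℤ nuF) (mapN ℝ nuF) :=
  pres_N (MF_inv h h3) (MF_inv' h h3) (MF_pt h h3)

end Pool.Agent.H469R10.ZD
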