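import Mathlib
import Pool.Agent.H469R10.ZD.LinT

set_option autoImplicit false

/-! The automorphism of positive entropy and its action on classes. -/

namespace Pool.Agent.H469R10.ZD

section gen
variable (A : Type) [CommRing A]

theorem nuS2 : ∀ t : Ix, t.1 ≠ 0 → nuS (nuS t) = t := by decide
theorem nuF4 : ∀ t : Ix, nuF (nuF (nuF (nuF t))) = t := by decide
theorem nuD3 : ∀ t : Ix, nuD (nuD (nuD t)) = t := by decide

theorem mapS_mapS (c : A × (Ix → A)) : mapS A (mapS A c) = c := by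
  refine Prod.ext ?_ (funext fun t => ?_)
  · rw [mapS_fst, mapS_fst, mapS_snd0, mapS_snd0, mapS_snd0]
    ring
  · by_cases ht : t.1 = 0
    · obtain ⟨T, j⟩ := t
      simp only at ht
      subst ht
      rw [mapS_snd0, mapS_fst, mapS_snd0, mapS_snd0, mapS_snd0, mapS_snd0]
      ring
    · rw [mapS_snd A _ ht, mapS_snd A _ (decS1 t ht), nuS2 t ht]

theorem mapF4 (c : A × (Ix → A)) :
    mapN A nuF (mapN A nuF (mapN A nuF (mapN A nuF c))) = c := by
  refine Prod.ext rfl (funext fun t => ?_)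
  show c.2 (nuF (nuF (nuF (nuF t)))) = c.2 t
  rw [nuF4]

theorem mapD3 (c : A × (Ix → A)) : mapN A nuD (mapN A nuD (mapN A nuD c)) = c := by
  refine Prod.ext rfl (funext fun t => ?_)
  show c.2 (nuD (nuD (nuD t))) = c.2 t
  rw [nuD3]

/-- the automorphism -/
def fA : A × (Ix → A) →ₗ[A] A × (Ix → A) :=
  mapS A ∘ₗ mapN A nuF ∘ₗ mapS A ∘ₗ mapN A nuF ∘ₗ mapS A ∘ₗ mapN A nuD ∘ₗ mapN A nuD ∘ₗ
    mapN A nuF ∘ₗ mapN A nuD

/-- its inverse -/
def gA : A × (Ix → A) →ₗ[A] A × (Ix → A) :=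
  (mapN A nuD ∘ₗ mapN A nuD) ∘ₗ (mapN A nuF ∘ₗ mapN A nuF ∘ₗ mapN A nuF) ∘ₗ mapN A nuD ∘ₗ
    mapS A ∘ₗ (mapN A nuF ∘ₗ mapN A nuF ∘ₗ mapN A nuF) ∘ₗ mapS A ∘ₗ
    (mapN A nuF ∘ₗ mapN A nuF ∘ₗ mapN A nuF) ∘ₗ mapS A

theorem g_f (c : A × (Ix → A)) : gA A (fA A c) = c := by
  simp only [gA, fA, LinearMap.comp_apply, mapS_mapS, mapF4, mapD3]

theorem f_g (c : A × (Ix → A)) : fA A (gA A c) = c := by
  simp only [gA, fA, LinearMap.comp_apply, mapS_mapS, mapF4, mapD3]

/-- symmetric classes -/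
def sy {A : Type} (h n0 n1 n2 n3 : A) : A × (Ix → A) := (h, fun t => ![n0, n1, n2, n3] t.1)

variable {A}

theorem S_sy (h n0 n1 n2 n3 : A) : mapS A (sy h n0 n1 n2 n3) =
    sy (2 * h - 3 * n0) (h - 2 * n0) n1 n3 n2 := by
  refine Prod.ext ?_ (funext fun t => ?_)
  · rw [mapS_fst]; simp [sy]; ring
  · obtain ⟨T, j⟩ := t
    fin_cases T
    · simp [mapS, sy]; ring
    · simp [mapS, sy, nuS]
    · simp [mapS, sy, nuS]
    · simp [mapS, sy, nuS]

theorem F_sy (h n0 n1 n2 n3 : A) : mapN A nuF (sy h n0 n1 n2 n3) = sy h n1 n0 n3 n2 := by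
  refine Prod.ext rfl (funext fun t => ?_)
  obtain ⟨T, j⟩ := t
  fin_cases T <;> simp [mapN, sy, nuF]

theorem D_sy (h n0 n1 n2 n3 : A) : mapN A nuD (sy h n0 n1 n2 n3) = sy h n0 n2 n3 n1 := by
  refine Prod.ext rfl (funext fun t => ?_)
  obtain ⟨T, j⟩ := t
  fin_cases T <;> simp [mapN, sy, nuD]

theorem f_sy (h a b : A) : fA A (sy h a a b b) =
    sy (5 * h - 12 * b) (2 * h - 5 * b) (2 * h - 5 * b) a a := by
  simp only [fA, LinearMap.comp_apply, S_sy, F_sy, D_sy]
  congr 1 <;> ring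

end gen

/-! ### the bilinear form -/

/-- the intersection form -/
def bil (x y : ℝ × (Ix → ℝ)) : ℝ := x.1 * y.1 - ∑ t, x.2 t * y.2 t

theorem bil_S (x y : ℝ × (Ix → ℝ)) : bil (mapS ℝ x) (mapS ℝ y) = bil x y := by
  simp only [bil, Fintype.sum_prod_type, Fin.sum_univ_four, Fin.sum_univ_three]
  have e1 : (-1 : Fin 3) = 2 := rfl
  have e2 : (-2 : Fin 3) = 1 := rfl
  simp [mapS, nuS, e1, e2]
  ring

theorem bil_N {ν : Ix → Ix} (hν : Function.Bijective ν) (x y : ℝ × (Ix → ℝ)) :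
    bil (mapN ℝ ν x) (mapN ℝ ν y) = bil x y := by
  simp only [bil, mapN, LinearMap.coe_mk, AddHom.coe_mk]
  rw [hν.sum_comp (fun t => x.2 t * y.2 t)]

theorem bijF : Function.Bijective nuF := by decide
theorem bijD : Function.Bijective nuD := by decide

theorem bil_f (x y : ℝ × (Ix → ℝ)) : bil (fA ℝ x) (fA ℝ y) = bil x y := by
  simp only [fA, LinearMap.comp_apply, bil_S, bil_N bijF, bil_N bijD]

theorem bil_f_g (n : ℕ) (x y : ℝ × (Ix → ℝ)) :
    bil ((fA ℝ)^[n] x) y = bil x ((gA ℝ)^[n] y) := by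
  induction n generalizing x y with
  | zero => rfl
  | succ n ih =>
    rw [Function.iterate_succ_apply', Function.iterate_succ_apply]
    rw [← ih]
    conv_lhs => rw [← f_g ℝ y]
    rw [bil_f]

theorem bil_add_left (x x' y : ℝ × (Ix → ℝ)) : bil (x + x') y = bil x y + bil x' y := by
  simp only [bil, Prod.fst_add, Prod.snd_add, Pi.add_apply, add_mul, Finset.sum_add_distrib]
  ring

theorem bil_smul_left (a : ℝ) (x y : ℝ × (Ix → ℝ)) : bil (a • x) y = a * bil x y := by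
  simp only [bil, Prod.smul_fst, Prod.smul_snd, Pi.smul_apply, smul_eq_mul, mul_assoc,
    ← Finset.mul_sum]
  ring

theorem bil_comm (x y : ℝ × (Ix → ℝ)) : bil x y = bil y x := by
  simp only [bil, mul_comm]

theorem bil_cont (x : ℝ × (Ix → ℝ)) : Continuous fun y => bil x y := by
  unfold bil
  fun_prop

/-! ### eigenvectors -/

/-- the dominant eigenvalue -/
noncomputable def lam : ℝ := 2 + √3
/-- its inverse -/
noncomputable def muu : ℝ := 2 - √3

theorem s3 : √3 * √3 = 3 := Real.mul_self_sqrt (by norm_num)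

theorem lam_mu : lam * muu = 1 := by
  unfold lam muu
  linear_combination -s3

theorem mu_pos : 0 < muu := by
  unfold muu
  have : √3 < 2 := by
    rw [Real.sqrt_lt' (by norm_num)]; norm_num
  linarith

theorem mu_lt : muu < 1 := by
  unfold muu
  have : 1 < √3 := by
    rw [Real.lt_sqrt (by norm_num)]; norm_num
  linarith

/-- eigenvector for `lam` -/
noncomputable def wp : ℝ × (Ix → ℝ) := sy (2 + 2 * muu) 1 1 muu muu
/-- eigenvector for `muu` -/
noncomputable def wm : ℝ × (Ix → ℝ) := sy (2 + 2 * lam) 1 1 lam lam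
/-- the canonical class -/
noncomputable def KK : ℝ × (Ix → ℝ) := sy (-3) (-1) (-1) (-1) (-1)

theorem smul_sy (a h n0 n1 n2 n3 : ℝ) :
    a • sy h n0 n1 n2 n3 = sy (a * h) (a * n0) (a * n1) (a * n2) (a * n3) := by
  refine Prod.ext rfl (funext fun t => ?_)
  obtain ⟨T, j⟩ := t
  fin_cases T <;> simp [sy]

theorem add_sy (h n0 n1 n2 n3 h' n0' n1' n2' n3' : ℝ) :
    sy h n0 n1 n2 n3 + sy h' n0' n1' n2' n3' =
      sy (h + h') (n0 + n0') (n1 + n1') (n2 + n2') (n3 + n3') := by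
  refine Prod.ext rfl (funext fun t => ?_)
  obtain ⟨T, j⟩ := t
  fin_cases T <;> simp [sy]

theorem f_wp : fA ℝ wp = lam • wp := by
  have h := lam_mu
  rw [wp, f_sy, smul_sy]
  unfold lam muu at *
  congr 1
  · linear_combination -2 * h
  · ring
  · ring
  · linear_combination -h
  · linear_combination -h

theorem f_wm : fA ℝ wm = muu • wm := by
  have h := lam_mu
  rw [wm, f_sy, smul_sy]
  unfold lam muu at *
  congr 1
  · linear_combination -2 * h
  · ring
  · ring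
  · linear_combination -h
  · linear_combination -h

theorem f_KK : fA ℝ KK = KK := by
  rw [KK, f_sy]
  congr 1 <;> norm_num

theorem f_iter (n : ℕ) (a b c : ℝ) : (fA ℝ)^[n] (a • KK + b • wp + c • wm) =
    a • KK + (b * lam ^ n) • wp + (c * muu ^ n) • wm := by
  induction n with
  | zero => simp
  | succ n ih =>
    rw [Function.iterate_succ_apply', ih]
    rw [map_add, map_add, map_smul, map_smul, map_smul, f_KK, f_wp, f_wm, smul_smul, smul_smul,
      pow_succ, pow_succ, mul_assoc, mul_assoc]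

/-- the class of a line -/
def HZ : ℤ × (Ix → ℤ) := sy 1 0 0 0 0
/-- the sum of six exceptional curves -/
def AZ : ℤ × (Ix → ℤ) := sy 0 (-1) (-1) 0 0

theorem toR_sy (h n0 n1 n2 n3 : ℤ) : toR (sy h n0 n1 n2 n3) =
    sy (h : ℝ) (n0 : ℝ) (n1 : ℝ) (n2 : ℝ) (n3 : ℝ) := by
  refine Prod.ext rfl (funext fun t => ?_)
  obtain ⟨T, j⟩ := t
  fin_cases T <;> simp [sy, toR]

theorem H_dec : toR HZ = (1 : ℝ) • KK + (1 / 2 + √3 / 6) • wp + (1 / 2 - √3 / 6) • wm := by
  have h := s3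
  rw [HZ, toR_sy, KK, wp, wm, smul_sy, smul_sy, smul_sy, add_sy, add_sy]
  unfold lam muu
  congr 1
  · push_cast; linear_combination (2 / 3) * h
  · push_cast; ring
  · push_cast; ring
  · push_cast; linear_combination (1 / 3) * h
  · push_cast; linear_combination (1 / 3) * h

theorem A_dec : toR AZ = (2 : ℝ) • KK + (1 / 2 : ℝ) • wp + (1 / 2 : ℝ) • wm := by
  rw [AZ, toR_sy, KK, wp, wm, smul_sy, smul_sy, smul_sy, add_sy, add_sy]
  unfold lam muu
  congr 1
  · push_cast; ring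
  · push_cast; ring
  · push_cast; ring
  · push_cast; ring
  · push_cast; ring

theorem bil_sy (h n0 n1 n2 n3 h' n0' n1' n2' n3' : ℝ) :
    bil (sy h n0 n1 n2 n3) (sy h' n0' n1' n2' n3') =
      h * h' - 3 * (n0 * n0' + n1 * n1' + n2 * n2' + n3 * n3') := by
  simp only [bil, Fintype.sum_prod_type, Fin.sum_univ_four, Fin.sum_univ_three]
  simp [sy]
  ring

theorem bil_wp_wp : bil wp wp = 0 := by
  have h := s3
  rw [wp, bil_sy]
  unfold muu
  linear_combination (-2) * h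

theorem bil_wm_wp : bil wm wp = 12 := by
  have h := s3
  rw [wp, wm, bil_sy]
  unfold muu lam
  linear_combination (2) * h

end Pool.Agent.H469R10.ZD
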