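import Mathlib
import Pool.Agent.H469R10.ZD.Lat

set_option autoImplicit false

/-! Cones of classes and the base case. -/

namespace Pool.Agent.H469R10.ZD

open MvPolynomial Filter Topology
open scoped NNReal ENNReal

variable {ι : Type}

theorem clCone_eq (S : Set (ℝ × (ι → ℝ))) :
    ClCone S = ((Submodule.span ℝ≥0 S).topologicalClosure : Set (ℝ × (ι → ℝ))) := rfl

theorem sub_clCone (S : Set (ℝ × (ι → ℝ))) : S ⊆ ClCone S :=
  fun _ hx => subset_closure (Submodule.subset_span hx)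

theorem clCone_add {S : Set (ℝ × (ι → ℝ))} {x y : ℝ × (ι → ℝ)} (hx : x ∈ ClCone S)
    (hy : y ∈ ClCone S) : x + y ∈ ClCone S := by
  rw [clCone_eq] at *
  exact Submodule.add_mem _ hx hy

theorem clCone_smul {S : Set (ℝ × (ι → ℝ))} {x : ℝ × (ι → ℝ)} (hx : x ∈ ClCone S)
    {a : ℝ} (ha : 0 ≤ a) : a • x ∈ ClCone S := by
  rw [clCone_eq] at *
  have := Submodule.smul_mem _ (⟨a, ha⟩ : ℝ≥0) hx
  exact this

theorem clCone_zero (S : Set (ℝ × (ι → ℝ))) : (0 : ℝ × (ι → ℝ)) ∈ ClCone S := by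
  rw [clCone_eq]
  exact Submodule.zero_mem _

theorem clCone_sum {S : Set (ℝ × (ι → ℝ))} {α : Type} (s : Finset α) (f : α → ℝ × (ι → ℝ))
    (h : ∀ i ∈ s, f i ∈ ClCone S) : ∑ i ∈ s, f i ∈ ClCone S := by
  rw [clCone_eq] at *
  exact Submodule.sum_mem _ h

theorem clCone_closed (S : Set (ℝ × (ι → ℝ))) : IsClosed (ClCone S) := isClosed_closure

/-- a linear inequality which holds on `S` holds on the closed cone -/
theorem clCone_le {S : Set (ℝ × (ι → ℝ))} {C : Set (ℝ × (ι → ℝ))} (hC : IsClosed C)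
    (h0 : (0 : ℝ × (ι → ℝ)) ∈ C) (hadd : ∀ x ∈ C, ∀ y ∈ C, x + y ∈ C)
    (hsmul : ∀ a : ℝ, 0 ≤ a → ∀ x ∈ C, a • x ∈ C) (hS : S ⊆ C) : ClCone S ⊆ C := by
  let W : Submodule ℝ≥0 (ℝ × (ι → ℝ)) :=
    { carrier := C
      add_mem' := fun {x y} hx hy => hadd x hx y hy
      zero_mem' := h0
      smul_mem' := fun a x hx => hsmul a a.2 x hx }
  have h1 : (Submodule.span ℝ≥0 S) ≤ W := Submodule.span_le.2 hS
  exact closure_minimal h1 hC

variable [Finite ι]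

theorem clCone_map {S T : Set (ℝ × (ι → ℝ))} (ψ : ℝ × (ι → ℝ) →ₗ[ℝ] ℝ × (ι → ℝ))
    (h : ∀ x ∈ S, ψ x ∈ ClCone T) {x : ℝ × (ι → ℝ)} (hx : x ∈ ClCone S) : ψ x ∈ ClCone T := by
  have hψ : Continuous ψ := ψ.continuous_of_finiteDimensional
  have : ClCone S ⊆ ψ ⁻¹' ClCone T := by
    refine clCone_le ((clCone_closed T).preimage hψ) ?_ ?_ ?_ h
    · simpa using clCone_zero T
    · intro x hx y hy
      simp only [Set.mem_preimage, map_add] at *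
      exact clCone_add hx hy
    · intro a ha x hx
      simp only [Set.mem_preimage, map_smul] at *
      exact clCone_smul hx ha
  exact this hx

omit [Finite ι] in
theorem interior_add {S : Set (ℝ × (ι → ℝ))} {x y : ℝ × (ι → ℝ)} (hx : x ∈ interior (ClCone S))
    (hy : y ∈ ClCone S) : x + y ∈ interior (ClCone S) := by
  have h1 : IsOpen ((fun z => z - y) ⁻¹' interior (ClCone S)) :=
    isOpen_interior.preimage (continuous_id.sub continuous_const)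
  refine interior_maximal ?_ h1 ?_
  · intro z hz
    have h2 : z - y ∈ ClCone S := interior_subset hz
    have := clCone_add h2 hy
    rwa [sub_add_cancel] at this
  · simpa using hx

omit [Finite ι] in
theorem interior_smul {S : Set (ℝ × (ι → ℝ))} {x : ℝ × (ι → ℝ)} (hx : x ∈ interior (ClCone S))
    {a : ℝ} (ha : 0 < a) : a • x ∈ interior (ClCone S) := by
  have h1 : IsOpen ((fun z : ℝ × (ι → ℝ) => a⁻¹ • z) ⁻¹' interior (ClCone S)) :=
    isOpen_interior.preimage (continuous_const_smul _)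
  refine interior_maximal ?_ h1 ?_
  · intro z hz
    have h2 : a⁻¹ • z ∈ ClCone S := interior_subset hz
    have := clCone_smul h2 ha.le
    rwa [smul_smul, mul_inv_cancel₀ ha.ne', one_smul] at this
  · simpa [smul_smul, inv_mul_cancel₀ ha.ne'] using hx

section base

variable {k : Type} [Field k]

omit [Finite ι] in
theorem gen_zero [Infinite k] {p : ι → Fin 3 → k} {c : ℤ × (ι → ℤ)} :
    GenPts p 0 c ↔ ∃ G e, IsCycle p G e c := by
  constructor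
  · rintro ⟨Φ, hΦ, hx⟩
    obtain ⟨w, hw⟩ := exists_eval_ne hΦ
    have : (fun ij : Fin 0 × Fin 3 => (fun (i : Fin 0) (_ : Fin 3) => (0 : k)) ij.1 ij.2) = w := by
      funext ij
      exact ij.1.elim0
    obtain ⟨G, e, hG, -⟩ := hx (fun i => i.elim0) (by
      convert hw using 2
      congr 1
      funext ij
      exact ij.1.elim0)
    exact ⟨G, e, hG⟩
  · rintro ⟨G, e, hG⟩
    exact ⟨1, one_ne_zero, fun x _ => ⟨G, e, hG, fun j => j.elim0⟩⟩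

theorem Pres.eff [Infinite k] {p : Ix → Fin 3 → k} {φ : ℤ × (Ix → ℤ) →ₗ[ℤ] ℤ × (Ix → ℤ)}
    {ψ : ℝ × (Ix → ℝ) →ₗ[ℝ] ℝ × (Ix → ℝ)} (h : Pres p φ ψ) {x : ℝ × (Ix → ℝ)}
    (hx : x ∈ Eff p) : ψ x ∈ Eff p := by
  refine clCone_map ψ ?_ hx
  rintro _ ⟨G, e, c, hG, rfl⟩
  rw [← h.cast]
  obtain ⟨G', e', hG'⟩ := gen_zero.1 (h.gen 0 c (gen_zero.2 ⟨G, e, hG⟩))
  exact sub_clCone _ ⟨G', e', _, hG', rfl⟩

theorem Pres.mov {p : Ix → Fin 3 → k} {φ : ℤ × (Ix → ℤ) →ₗ[ℤ] ℤ × (Ix → ℤ)}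
    {ψ : ℝ × (Ix → ℝ) →ₗ[ℝ] ℝ × (Ix → ℝ)} (h : Pres p φ ψ) {x : ℝ × (Ix → ℝ)}
    (hx : x ∈ Mov p) : ψ x ∈ Mov p := by
  refine clCone_map ψ ?_ hx
  rintro _ ⟨c, hc, rfl⟩
  rw [← h.cast]
  exact sub_clCone _ ⟨_, h.cov c hc, rfl⟩

theorem Pres.inter [Infinite k] {p : Ix → Fin 3 → k}
    {φ φ' : ℤ × (Ix → ℤ) →ₗ[ℤ] ℤ × (Ix → ℤ)}
    {ψ ψ' : ℝ × (Ix → ℝ) →ₗ[ℝ] ℝ × (Ix → ℝ)} (h : Pres p φ ψ) (h' : Pres p φ' ψ')
    (hψ : ∀ x, ψ (ψ' x) = x) (hψ' : ∀ x, ψ' (ψ x) = x) {x : ℝ × (Ix → ℝ)}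
    (hx : x ∈ interior (Eff p)) : ψ x ∈ interior (Eff p) := by
  have hc : Continuous ψ' := ψ'.continuous_of_finiteDimensional
  have h1 : IsOpen (ψ' ⁻¹' interior (Eff p)) := isOpen_interior.preimage hc
  refine interior_maximal ?_ h1 ?_
  · intro y hy
    have h2 : ψ' y ∈ Eff p := interior_subset hy
    have := h.eff h2
    rwa [hψ] at this
  · rw [Set.mem_preimage, hψ']
    exact hx

theorem Pres.maxPts {p : Ix → Fin 3 → k}
    {φ φ' : ℤ × (Ix → ℤ) →ₗ[ℤ] ℤ × (Ix → ℤ)}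
    {ψ ψ' : ℝ × (Ix → ℝ) →ₗ[ℝ] ℝ × (Ix → ℝ)} (h : Pres p φ ψ) (h' : Pres p φ' ψ')
    (hφ' : ∀ x, φ' (φ x) = x) (c : ℤ × (Ix → ℤ)) : maxPts p (φ c) = maxPts p c := by
  have key : ∀ b, GenPts p b (φ c) ↔ GenPts p b c := fun b =>
    ⟨fun H => by have := h'.gen b _ H; rwa [hφ'] at this, fun H => h.gen b _ H⟩
  unfold ZD.maxPts
  simp only [key]

theorem Pres.mob {p : Ix → Fin 3 → k}
    {φ φ' : ℤ × (Ix → ℤ) →ₗ[ℤ] ℤ × (Ix → ℤ)}
    {ψ ψ' : ℝ × (Ix → ℝ) →ₗ[ℝ] ℝ × (Ix → ℝ)} (h : Pres p φ ψ) (h' : Pres p φ' ψ')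
    (hφ' : ∀ x, φ' (φ x) = x) (c : ℤ × (Ix → ℤ)) : mob p (φ c) = mob p c := by
  unfold ZD.mob
  congr 1
  funext m
  rw [← map_nsmul, h.maxPts h' hφ']

/-- general points only see the positive multiplicities -/
theorem gen_congr {p : Ix → Fin 3 → k} {c c' : ℤ × (Ix → ℤ)} (h1 : c.1 = c'.1)
    (h2 : ∀ t, (c.2 t).toNat = (c'.2 t).toNat) (b : ℕ) : GenPts p b c ↔ GenPts p b c' := by
  have key : ∀ G, (∃ e, IsCycle p G e c) ↔ (∃ e, IsCycle p G e c') := by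
    intro G
    rw [exists_cycle_iff, exists_cycle_iff, h1]
    simp only [h2]
  have key2 : ∀ (x : Fin b → Fin 3 → k), (∃ G e, IsCycle p G e c ∧ ∀ j, eval (x j) G = 0) ↔
      (∃ G e, IsCycle p G e c' ∧ ∀ j, eval (x j) G = 0) := by
    intro x
    constructor
    · rintro ⟨G, e, hG, hx⟩
      obtain ⟨e', he'⟩ := (key G).1 ⟨e, hG⟩
      exact ⟨G, e', he', hx⟩
    · rintro ⟨G, e, hG, hx⟩
      obtain ⟨e', he'⟩ := (key G).2 ⟨e, hG⟩
      exact ⟨G, e', he', hx⟩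
  unfold GenPts
  simp only [key2]

theorem mob_base (p : Ix → Fin 3 → k) (N : ℕ) : mob p HZ = mob p (HZ + N • AZ) := by
  unfold ZD.mob
  congr 1
  funext m
  have key : ∀ b, GenPts p b (m • HZ) ↔ GenPts p b (m • (HZ + N • AZ)) := by
    intro b
    refine gen_congr ?_ ?_ b
    · simp [HZ, AZ, sy]
    · intro t
      obtain ⟨T, j⟩ := t
      have hN : 0 ≤ (N : ℤ) := Int.natCast_nonneg N
      have hm : 0 ≤ (m : ℤ) := Int.natCast_nonneg m
      have hmN : 0 ≤ (m : ℤ) * N := mul_nonneg hm hN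
      have hz : (-((m : ℤ) * N)).toNat = 0 := Int.toNat_of_nonpos (by linarith)
      fin_cases T
      · simp [HZ, AZ, sy, hz]
      · simp [HZ, AZ, sy, hz]
      · simp [HZ, AZ, sy]
      · simp [HZ, AZ, sy]
  have : ZD.maxPts p (m • HZ) = ZD.maxPts p (m • (HZ + N • AZ)) := by
    unfold ZD.maxPts
    simp only [key]
  rw [this]

theorem isCycle_HZ (p : Ix → Fin 3 → k) : ∃ G e, IsCycle p G e HZ := by
  refine ⟨X 0, ?_⟩
  rw [exists_cycle_iff]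
  refine ⟨X_ne_zero _, ⟨1, isHomogeneous_X _ _, rfl⟩, fun t => ?_⟩
  obtain ⟨T, j⟩ := t
  fin_cases T <;> simp [HZ, sy]

omit [Finite ι] in
theorem isCycle_exc (p : ι → Fin 3 → k) (m : ι → ℤ) (hm : ∀ t, m t ≤ 0) :
    ∃ G e, IsCycle p G e ((0 : ℤ), m) := by
  refine ⟨1, ?_⟩
  rw [exists_cycle_iff]
  refine ⟨one_ne_zero, ⟨0, isHomogeneous_one _ _, rfl⟩, fun t => ?_⟩
  have : (m t).toNat = 0 := by have := hm t; omega
  simp [this]

theorem line_through (q : Fin 3 → k) (hq : q ≠ 0) :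
    ∃ G : MvPolynomial (Fin 3) k, G ≠ 0 ∧ G.IsHomogeneous 1 ∧ eval q G = 0 := by
  obtain ⟨i, hi⟩ : ∃ i, q i ≠ 0 := by
    by_contra hcon
    push Not at hcon
    exact hq (funext hcon)
  have hj : ∃ j : Fin 3, j ≠ i := ⟨i + 1, dec1 i⟩
  obtain ⟨j, hj⟩ := hj
  refine ⟨C (q i) * X j - C (q j) * X i, ?_, ?_, ?_⟩
  · intro h0
    have h1 := congrArg (eval (Pi.single j (1 : k))) h0
    simp [Pi.single_eq_of_ne hj.symm] at h1
    exact hi h1
  · refine IsHomogeneous.sub ?_ ?_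
    · have := (isHomogeneous_C (Fin 3) (q i)).mul (isHomogeneous_X k j)
      simpa using this
    · have := (isHomogeneous_C (Fin 3) (q j)).mul (isHomogeneous_X k i)
      simpa using this
  · simp; ring

omit [Finite ι] in
theorem isCycle_line [DecidableEq ι] (p : ι → Fin 3 → k) (hp : ∀ i, p i ≠ 0) (t : ι) :
    ∃ G e, IsCycle p G e ((1 : ℤ), (Pi.single t 1 : ι → ℤ)) := by
  obtain ⟨G, h0, h1, h2⟩ := line_through (p t) (hp t)
  refine ⟨G, ?_⟩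
  rw [exists_cycle_iff]
  refine ⟨h0, ⟨1, h1, rfl⟩, fun s => ?_⟩
  by_cases hs : s = t
  · subst hs
    simp [RingHom.mem_ker, h2]
  · simp [Pi.single_eq_of_ne hs]

end base

end Pool.Agent.H469R10.ZD
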