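import Mathlib
import Pool.Agent.H469R10.ZD.Cone

set_option autoImplicit false

/-! The counterexample. -/

namespace Pool.Agent.H469R10.ZD

open MvPolynomial Filter Topology
open scoped NNReal ENNReal

variable {k : Type} [Field k]

/-- an ample class is big -/
theorem H_interior {p : Ix → Fin 3 → k} (hp : ∀ i, p i ≠ 0) :
    toR HZ ∈ interior (Eff p) := by
  classical
  have hH : toR HZ ∈ Eff p := by
    obtain ⟨G, e, hG⟩ := isCycle_HZ p
    exact sub_clCone _ ⟨G, e, _, hG, rfl⟩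
  have hE : ∀ t : Ix, toR ((0 : ℤ), (Pi.single t (-1) : Ix → ℤ)) ∈ Eff p := by
    intro t
    obtain ⟨G, e, hG⟩ := isCycle_exc p (Pi.single t (-1) : Ix → ℤ) (by
      intro s
      by_cases hs : s = t
      · subst hs; simp
      · simp [Pi.single_eq_of_ne hs])
    exact sub_clCone _ ⟨G, e, _, hG, rfl⟩
  have hL : ∀ t : Ix, toR ((1 : ℤ), (Pi.single t 1 : Ix → ℤ)) ∈ Eff p := by
    intro t
    obtain ⟨G, e, hG⟩ := isCycle_line p hp t
    exact sub_clCone _ ⟨G, e, _, hG, rfl⟩
  have hball : Metric.ball (toR HZ) (1 / 100) ⊆ Eff p := by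
    intro x hx
    rw [Metric.mem_ball, Prod.dist_eq, max_lt_iff] at hx
    obtain ⟨h1, h2⟩ := hx
    have h1' : |x.1 - 1| < 1 / 100 := by
      have : (toR HZ).1 = 1 := by simp [toR, HZ, sy]
      rw [this, Real.dist_eq] at h1
      exact h1
    have h2' : ∀ t, |x.2 t| < 1 / 100 := by
      intro t
      have h3 := (dist_pi_lt_iff (by norm_num)).1 h2 t
      have : (toR HZ).2 t = 0 := by
        obtain ⟨T, j⟩ := t
        fin_cases T <;> simp [toR, HZ, sy]
      rw [this, Real.dist_eq, sub_zero] at h3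
      exact h3
    have hdec : x = (x.1 - ∑ t, max (x.2 t) 0) • toR HZ +
        ∑ t, max (x.2 t) 0 • toR ((1 : ℤ), (Pi.single t 1 : Ix → ℤ)) +
        ∑ t, max (-x.2 t) 0 • toR ((0 : ℤ), (Pi.single t (-1) : Ix → ℤ)) := by
      refine Prod.ext ?_ (funext fun s => ?_)
      · simp [toR, HZ, sy, Prod.fst_sum]
      · have hs : (toR HZ).2 s = 0 := by
          obtain ⟨T, j⟩ := s
          fin_cases T <;> simp [toR, HZ, sy]
        have e1 : ∑ t, max (x.2 t) 0 * (toR ((1 : ℤ), (Pi.single t 1 : Ix → ℤ))).2 s =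
            max (x.2 s) 0 := by
          rw [Finset.sum_eq_single s]
          · simp [toR]
          · intro t _ ht
            simp [toR, Pi.single_eq_of_ne ht.symm]
          · intro h; exact absurd (Finset.mem_univ s) h
        have e2 : ∑ t, max (-x.2 t) 0 * (toR ((0 : ℤ), (Pi.single t (-1) : Ix → ℤ))).2 s =
            -max (-x.2 s) 0 := by
          rw [Finset.sum_eq_single s]
          · simp [toR]
          · intro t _ ht
            simp [toR, Pi.single_eq_of_ne ht.symm]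
          · intro h; exact absurd (Finset.mem_univ s) h
        simp only [Prod.snd_add, Prod.smul_snd, Prod.snd_sum, Pi.add_apply, Pi.smul_apply,
          Finset.sum_apply, smul_eq_mul, hs, mul_zero, zero_add, e1, e2]
        rcases le_total 0 (x.2 s) with h | h
        · rw [max_eq_left h, max_eq_right (by linarith)]; ring
        · rw [max_eq_right h, max_eq_left (by linarith)]; ring
    have hsum : ∑ t : Ix, max (x.2 t) 0 ≤ 12 * (1 / 100 : ℝ) := by
      calc ∑ t : Ix, max (x.2 t) 0 ≤ ∑ _t : Ix, (1 / 100 : ℝ) := by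
            refine Finset.sum_le_sum fun t _ => ?_
            have := abs_lt.1 (h2' t)
            exact max_le this.2.le (by norm_num)
        _ = _ := by simp
    rw [hdec]
    refine clCone_add (clCone_add (clCone_smul hH ?_) ?_) ?_
    · have := abs_lt.1 h1'
      linarith
    · exact clCone_sum _ _ fun t _ => clCone_smul (hL t) (le_max_right _ _)
    · exact clCone_sum _ _ fun t _ => clCone_smul (hE t) (le_max_right _ _)
  exact interior_maximal hball Metric.isOpen_ball (Metric.mem_ball_self (by norm_num))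

/-- lines form a covering family -/
theorem cov_H {ω : k} (h : ω ^ 2 + ω + 1 = 0) : Covering (pt ω) HZ := by
  classical
  set L : Ix → MvPolynomial (Fin 3) k := fun t =>
    C (pt ω t 0) * (X 2 - X 1) + C (pt ω t 1 - pt ω t 2) * X 0 with hL
  have hL0 : ∀ t, L t ≠ 0 := by
    intro t h0
    by_cases hp0 : pt ω t 0 = 0
    · have h1 := congrArg (eval (Pi.single 0 (1 : k))) h0
      simp [hL, hp0] at h1
      -- then `t = (0, 1)` or `(0, 2)`
      obtain ⟨T, j⟩ := t
      by_cases hT : T = 0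
      · subst hT
        rw [pt_zero] at h1 hp0
        fin_cases j
        · simp at hp0
        · simp at h1
        · simp at h1
      · exact pt_torus h (t := (T, j)) hT 0 hp0
    · have h1 := congrArg (eval (Pi.single 2 (1 : k))) h0
      simp [hL] at h1
      exact hp0 h1
  refine ⟨∏ t, L t, Finset.prod_ne_zero_iff.2 fun t _ => hL0 t, fun x hx => ?_⟩
  rw [map_prod] at hx
  have hx' : ∀ t, eval x (L t) ≠ 0 := fun t => Finset.prod_ne_zero_iff.1 hx t (Finset.mem_univ t)
  set G : MvPolynomial (Fin 3) k := C (x 2 - x 1) * X 0 + C (x 0) * X 1 - C (x 0) * X 2 with hG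
  have hGt : ∀ t, eval (pt ω t) G = eval x (L t) := by
    intro t
    simp [hG, hL]
    ring
  have hG0 : G ≠ 0 := by
    intro h0
    apply hx' (0, 0)
    rw [← hGt, h0, map_zero]
  have hhom : G.IsHomogeneous 1 := by
    refine IsHomogeneous.sub (IsHomogeneous.add ?_ ?_) ?_
    · have := (isHomogeneous_C (Fin 3) (x 2 - x 1)).mul (isHomogeneous_X k (0 : Fin 3))
      simpa using this
    · have := (isHomogeneous_C (Fin 3) (x 0)).mul (isHomogeneous_X k (1 : Fin 3))
      simpa using this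
    · have := (isHomogeneous_C (Fin 3) (x 0)).mul (isHomogeneous_X k (2 : Fin 3))
      simpa using this
  have hirr : Irreducible G := by
    apply irreducible_of_totalDegree_eq_one (hhom.totalDegree hG0)
    intro a ha
    rw [isUnit_iff_ne_zero]
    rintro rfl
    apply hG0
    ext e
    have := ha e
    rw [zero_dvd_iff] at this
    rw [this, coeff_zero]
  refine ⟨G, 0, ⟨⟨hG0, ⟨1, hhom, rfl⟩, fun t => ⟨0, ⟨?_, ?_⟩, ?_⟩⟩, Or.inl ⟨hirr, rfl⟩⟩, ?_⟩
  · simp
  · rw [zero_add, pow_one, RingHom.mem_ker, hGt]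
    exact hx' t
  · obtain ⟨T, j⟩ := t
    fin_cases T <;> simp [HZ, sy]
  · simp [hG]; ring

section main

variable [IsAlgClosed k] {ω : k} (h : ω ^ 2 + ω + 1 = 0) (h3 : (3 : k) ≠ 0)

include h h3

theorem pres_f : Pres (pt ω) (fA ℤ) (fA ℝ) := by
  have S := pres_S h
  have F := pres_F h h3
  have D := pres_D h
  exact S.comp (F.comp (S.comp (F.comp (S.comp (D.comp (D.comp (F.comp D)))))))

theorem pres_g : Pres (pt ω) (gA ℤ) (gA ℝ) := by
  have S := pres_S h
  have F := pres_F h h3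
  have D := pres_D h
  have D2 := D.comp D
  have F3 := F.comp (F.comp F)
  exact D2.comp (F3.comp (D.comp (S.comp (F3.comp (S.comp (F3.comp S))))))

theorem iter_cast (n : ℕ) (c : ℤ × (Ix → ℤ)) : toR ((fA ℤ)^[n] c) = (fA ℝ)^[n] (toR c) := by
  induction n with
  | zero => rfl
  | succ n ih =>
    rw [Function.iterate_succ_apply', Function.iterate_succ_apply', (pres_f h h3).cast, ih]

theorem iter_cast_g (n : ℕ) (c : ℤ × (Ix → ℤ)) : toR ((gA ℤ)^[n] c) = (gA ℝ)^[n] (toR c) := by
  induction n with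
  | zero => rfl
  | succ n ih =>
    rw [Function.iterate_succ_apply', Function.iterate_succ_apply', (pres_g h h3).cast, ih]

theorem iter_int (n : ℕ) {x : ℝ × (Ix → ℝ)} (hx : x ∈ interior (Eff (pt ω))) :
    (fA ℝ)^[n] x ∈ interior (Eff (pt ω)) := by
  have hinf : Infinite k := IsAlgClosed.instInfinite
  induction n with
  | zero => exact hx
  | succ n ih =>
    rw [Function.iterate_succ_apply']
    exact (pres_f h h3).inter (pres_g h h3) (f_g ℝ) (g_f ℝ) ih

theorem iter_eff (n : ℕ) {x : ℝ × (Ix → ℝ)} (hx : x ∈ Eff (pt ω)) :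
    (fA ℝ)^[n] x ∈ Eff (pt ω) := by
  have hinf : Infinite k := IsAlgClosed.instInfinite
  induction n with
  | zero => exact hx
  | succ n ih =>
    rw [Function.iterate_succ_apply']
    exact (pres_f h h3).eff ih

theorem iter_mov (n : ℕ) {x : ℝ × (Ix → ℝ)} (hx : x ∈ Mov (pt ω)) :
    (fA ℝ)^[n] x ∈ Mov (pt ω) := by
  induction n with
  | zero => exact hx
  | succ n ih =>
    rw [Function.iterate_succ_apply']
    exact (pres_f h h3).mov ih

theorem iter_mob (n : ℕ) (c : ℤ × (Ix → ℤ)) :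
    mob (pt ω) ((fA ℤ)^[n] c) = mob (pt ω) c := by
  induction n with
  | zero => rfl
  | succ n ih =>
    rw [Function.iterate_succ_apply', (pres_f h h3).mob (pres_g h h3) (g_f ℤ), ih]

theorem iter_gen (n : ℕ) {c : ℤ × (Ix → ℤ)} (hc : ∃ G e, IsCycle (pt ω) G e c) :
    ∃ G e, IsCycle (pt ω) G e ((gA ℤ)^[n] c) := by
  have hinf : Infinite k := IsAlgClosed.instInfinite
  induction n with
  | zero => exact hc
  | succ n ih =>
    rw [Function.iterate_succ_apply']
    exact gen_zero.1 ((pres_g h h3).gen 0 _ (gen_zero.2 ih))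

omit [IsAlgClosed k] h3 in
theorem AZ_eff : toR AZ ∈ Eff (pt ω) := by
  obtain ⟨G, e, hG⟩ := isCycle_exc (pt ω) AZ.2 (by
    intro t
    obtain ⟨T, j⟩ := t
    fin_cases T <;> simp [AZ, sy])
  exact sub_clCone _ ⟨G, e, _, hG, rfl⟩

/-- the pairs -/
theorem pair_mem (n N : ℕ) {t : ℝ} (ht : 0 < t) :
    (t • ((fA ℝ)^[n] (toR HZ + (N : ℝ) • toR AZ)), t • ((fA ℝ)^[n] (toR HZ))) ∈
      PosPairs (pt ω) := by
  have hcast : toR (HZ + N • AZ) = toR HZ + (N : ℝ) • toR AZ := by
    refine Prod.ext ?_ (funext fun s => ?_)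
    · simp [toR, HZ, AZ, sy]
    · simp [toR]
  have hA := AZ_eff h
  have hsub : toR (HZ + N • AZ) - toR HZ = (N : ℝ) • toR AZ := by
    rw [hcast]; abel
  refine ⟨(fA ℤ)^[n] (HZ + N • AZ), (fA ℤ)^[n] HZ, t, ht, ?_, ?_, ?_, ?_, ?_⟩
  · rw [iter_cast h h3, hcast]
    apply iter_int h h3
    exact interior_add (H_interior (pt_ne h)) (clCone_smul hA (Nat.cast_nonneg N))
  · rw [iter_cast h h3]
    apply iter_mov h h3
    exact sub_clCone _ ⟨HZ, cov_H h, rfl⟩
  · rw [iter_cast h h3, iter_cast h h3]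
    have hlin : ∀ (n : ℕ) (x y : ℝ × (Ix → ℝ)),
        (fA ℝ)^[n] x - (fA ℝ)^[n] y = (fA ℝ)^[n] (x - y) := by
      intro n
      induction n with
      | zero => intro x y; rfl
      | succ n ih =>
        intro x y
        rw [Function.iterate_succ_apply', Function.iterate_succ_apply',
          Function.iterate_succ_apply', ← ih, map_sub]
    rw [hlin, hsub]
    exact iter_eff h h3 n (clCone_smul hA (Nat.cast_nonneg N))
  · rw [iter_mob h h3, iter_mob h h3]
    exact mob_base _ N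
  · rw [iter_cast h h3, iter_cast h h3, hcast]

omit [IsAlgClosed k] h h3 in
theorem iter_H (n : ℕ) : (fA ℝ)^[n] (toR HZ) =
    (1 : ℝ) • KK + ((1 / 2 + √3 / 6) * lam ^ n) • wp + ((1 / 2 - √3 / 6) * muu ^ n) • wm := by
  rw [H_dec, f_iter]

omit [IsAlgClosed k] h h3 in
theorem iter_HA (n : ℕ) (N : ℝ) : (fA ℝ)^[n] (toR HZ + N • toR AZ) =
    (1 + 2 * N) • KK + ((1 / 2 + √3 / 6 + N / 2) * lam ^ n) • wp +
      ((1 / 2 - √3 / 6 + N / 2) * muu ^ n) • wm := by
  have : toR HZ + N • toR AZ = (1 + 2 * N) • KK + (1 / 2 + √3 / 6 + N / 2) • wp +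
      (1 / 2 - √3 / 6 + N / 2) • wm := by
    rw [H_dec, A_dec]
    module
  rw [this, f_iter]

/-- the pair `(wp, 0)` is a limit of the pairs -/
theorem lim_pairs : (wp, (0 : ℝ × (Ix → ℝ))) ∈ closure (PosPairs (pt ω)) := by
  have hmu := mu_pos
  have hlm : ∀ n : ℕ, muu ^ n * lam ^ n = 1 := by
    intro n
    rw [← mul_pow, mul_comm, lam_mu, one_pow]
  -- the scalars
  set t : ℕ → ℝ := fun n => 2 * muu ^ n / ((n : ℝ) + 1) with ht
  have ht0 : ∀ n, 0 < t n := by
    intro n
    rw [ht]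
    positivity
  have hmun : Tendsto (fun n : ℕ => muu ^ n) atTop (𝓝 0) :=
    tendsto_pow_atTop_nhds_zero_of_lt_one hmu.le mu_lt
  have hinv : Tendsto (fun n : ℕ => 1 / ((n : ℝ) + 1)) atTop (𝓝 0) :=
    tendsto_one_div_add_atTop_nhds_zero_nat
  have hP : ∀ n, t n • ((fA ℝ)^[n] (toR HZ)) =
      (2 * (muu ^ n) * (1 / ((n : ℝ) + 1))) • KK +
        ((1 + √3 / 3) * (1 / ((n : ℝ) + 1))) • wp +
        ((1 - √3 / 3) * (muu ^ n * muu ^ n) * (1 / ((n : ℝ) + 1))) • wm := by
    intro n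
    rw [iter_H, smul_add, smul_add, smul_smul, smul_smul, smul_smul]
    have e := hlm n
    congr 1
    · congr 1
      · congr 1
        rw [ht]; ring
      · congr 1
        rw [ht]
        calc 2 * muu ^ n / ((n : ℝ) + 1) * ((1 / 2 + √3 / 6) * lam ^ n) =
            (1 + √3 / 3) * (muu ^ n * lam ^ n) * (1 / ((n : ℝ) + 1)) := by ring
          _ = _ := by rw [e, mul_one]
    · congr 1
      rw [ht]; ring
  have hB : ∀ n : ℕ, t n • ((fA ℝ)^[n] (toR HZ + ((n + 1 : ℕ) : ℝ) • toR AZ)) =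
      (2 * (muu ^ n) * (1 / ((n : ℝ) + 1)) + 4 * muu ^ n) • KK +
        ((1 + √3 / 3) * (1 / ((n : ℝ) + 1)) + 1) • wp +
        ((1 - √3 / 3) * (muu ^ n * muu ^ n) * (1 / ((n : ℝ) + 1)) + muu ^ n * muu ^ n) • wm := by
    intro n
    rw [iter_HA, smul_add, smul_add, smul_smul, smul_smul, smul_smul]
    have e := hlm n
    have hn : ((n : ℝ) + 1) ≠ 0 := by positivity
    congr 1
    · congr 1
      · congr 1
        rw [ht]; push_cast; field_simp; ring
      · congr 1
        rw [ht]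
        calc 2 * muu ^ n / ((n : ℝ) + 1) * ((1 / 2 + √3 / 6 + ((n + 1 : ℕ) : ℝ) / 2) * lam ^ n) =
            ((1 + √3 / 3) * (1 / ((n : ℝ) + 1)) + 1) * (muu ^ n * lam ^ n) := by
              push_cast; field_simp; ring
          _ = _ := by rw [e, mul_one]
    · congr 1
      rw [ht]; push_cast; field_simp; ring
  have hz1 : Tendsto (fun n : ℕ => 2 * (muu ^ n) * (1 / ((n : ℝ) + 1))) atTop (𝓝 0) := by
    simpa using (hmun.const_mul 2).mul hinv
  have hz2 : Tendsto (fun n : ℕ => (1 + √3 / 3) * (1 / ((n : ℝ) + 1))) atTop (𝓝 0) := by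
    simpa using hinv.const_mul (1 + √3 / 3)
  have hz3 : Tendsto (fun n : ℕ => (1 - √3 / 3) * (muu ^ n * muu ^ n) * (1 / ((n : ℝ) + 1)))
      atTop (𝓝 0) := by
    simpa using ((hmun.mul hmun).const_mul (1 - √3 / 3)).mul hinv
  have hz4 : Tendsto (fun n : ℕ => muu ^ n * muu ^ n) atTop (𝓝 0) := by
    simpa using hmun.mul hmun
  have limP : Tendsto (fun n : ℕ => t n • ((fA ℝ)^[n] (toR HZ))) atTop (𝓝 0) := by
    simp only [hP]
    have := ((hz1.smul_const KK).add (hz2.smul_const wp)).add (hz3.smul_const wm)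
    simpa using this
  have limB : Tendsto (fun n : ℕ => t n • ((fA ℝ)^[n] (toR HZ + ((n + 1 : ℕ) : ℝ) • toR AZ)))
      atTop (𝓝 wp) := by
    simp only [hB]
    have := (((hz1.add (hmun.const_mul 4)).smul_const KK).add
      ((hz2.add_const 1).smul_const wp)).add ((hz3.add hz4).smul_const wm)
    simpa using this
  refine mem_closure_of_tendsto (limB.prodMk_nhds limP) (Eventually.of_forall fun n => ?_)
  exact pair_mem h h3 n (n + 1) (ht0 n)

/-- the limit class is nef -/
theorem nef_wp {c : ℤ × (Ix → ℤ)} (hc : ∃ G e, IsCycle (pt ω) G e c) :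
    0 ≤ bil wp (toR c) := by
  have hmu := mu_pos
  have key : ∀ n : ℕ, 0 ≤ bil ((fA ℝ)^[n] (toR HZ)) (toR c) := by
    intro n
    rw [bil_f_g, ← iter_cast_g h h3]
    obtain ⟨G, e, hG⟩ := iter_gen h h3 n hc
    obtain ⟨-, ⟨d, -, hd⟩, -⟩ := hG
    have : bil (toR HZ) (toR ((gA ℤ)^[n] c)) = d := by
      have h0 : ∀ t, (toR HZ).2 t = 0 := by
        intro t
        obtain ⟨T, j⟩ := t
        fin_cases T <;> simp [toR, HZ, sy]
      have h1 : (toR HZ).1 = 1 := by simp [toR, HZ, sy]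
      have h2 : (toR ((gA ℤ)^[n] c)).1 = d := by simp [toR, hd]
      simp only [bil, h0, h1, zero_mul, Finset.sum_const_zero, sub_zero, one_mul, h2]
    rw [this]
    exact Nat.cast_nonneg d
  have hα : (0 : ℝ) < 1 / 2 + √3 / 6 := by positivity
  have hmun : Tendsto (fun n : ℕ => muu ^ n) atTop (𝓝 0) :=
    tendsto_pow_atTop_nhds_zero_of_lt_one hmu.le mu_lt
  have hlm : ∀ n : ℕ, muu ^ n * lam ^ n = 1 := by
    intro n
    rw [← mul_pow, mul_comm, lam_mu, one_pow]
  have h2 : ∀ n : ℕ, muu ^ n * bil ((fA ℝ)^[n] (toR HZ)) (toR c) =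
      muu ^ n * bil KK (toR c) + (1 / 2 + √3 / 6) * bil wp (toR c) +
        (1 / 2 - √3 / 6) * (muu ^ n * muu ^ n) * bil wm (toR c) := by
    intro n
    rw [iter_H, bil_add_left, bil_add_left, bil_smul_left, bil_smul_left, bil_smul_left]
    have e := hlm n
    linear_combination ((1 / 2 + √3 / 6) * bil wp (toR c)) * e
  have h4 : Tendsto (fun n : ℕ => muu ^ n * bil KK (toR c) + (1 / 2 + √3 / 6) * bil wp (toR c) +
        (1 / 2 - √3 / 6) * (muu ^ n * muu ^ n) * bil wm (toR c)) atTop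
      (𝓝 ((1 / 2 + √3 / 6) * bil wp (toR c))) := by
    have := ((hmun.mul_const (bil KK (toR c))).add_const ((1 / 2 + √3 / 6) * bil wp (toR c))).add
      (((hmun.mul hmun).const_mul (1 / 2 - √3 / 6)).mul_const (bil wm (toR c)))
    simpa using this
  have h5 : 0 ≤ (1 / 2 + √3 / 6) * bil wp (toR c) := by
    refine ge_of_tendsto' h4 fun n => ?_
    rw [← h2]
    exact mul_nonneg (pow_nonneg hmu.le n) (key n)
  exact nonneg_of_mul_nonneg_right h5 hα

omit [IsAlgClosed k] h h3 in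
/-- integral classes orthogonal to `wp` are orthogonal to `wm` -/
theorem galois {c : ℤ × (Ix → ℤ)} (hc : bil wp (toR c) = 0) : bil wm (toR c) = 0 := by
  have key : ∀ s : ℝ, bil (sy (2 + 2 * s) 1 1 s s) (toR c) =
      ((2 * c.1 - (∑ j, c.2 (0, j) + ∑ j, c.2 (1, j)) : ℤ) : ℝ) +
        s * ((2 * c.1 - (∑ j, c.2 (2, j) + ∑ j, c.2 (3, j)) : ℤ) : ℝ) := by
    intro s
    simp only [bil, Fintype.sum_prod_type, Fin.sum_univ_four, Fin.sum_univ_three]
    simp [sy, toR]
    ring
  set a : ℤ := 2 * c.1 - (∑ j, c.2 (0, j) + ∑ j, c.2 (1, j)) with ha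
  set b : ℤ := 2 * c.1 - (∑ j, c.2 (2, j) + ∑ j, c.2 (3, j)) with hb
  rw [wp, key] at hc
  rw [wm, key]
  unfold muu at hc
  unfold lam
  have hirr : Irrational (√3) := by
    have := Nat.Prime.irrational_sqrt (show Nat.Prime 3 by norm_num)
    simpa using this
  have hb0 : b = 0 := by
    by_contra hb0
    have hb1 : (b : ℝ) ≠ 0 := by exact_mod_cast hb0
    apply hirr
    refine ⟨((a + 2 * b : ℤ) : ℚ) / (b : ℤ), ?_⟩
    push_cast
    rw [div_eq_iff hb1]
    linear_combination hc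
  have ha0 : a = 0 := by
    rw [hb0] at hc
    have : (a : ℝ) = 0 := by simpa using hc
    exact_mod_cast this
  rw [ha0, hb0]
  simp

/-- the limit class is not supported on finitely many curves -/
theorem not_supp : ¬ Supported (pt ω) wp := by
  rintro ⟨S, hfin, hS, hmem⟩
  have hnef : ∀ c ∈ S, 0 ≤ bil wp (toR c) := by
    intro c hc
    obtain ⟨G, e, hG, -⟩ := hS c hc
    exact nef_wp h h3 ⟨G, e, hG⟩
  -- a constant
  have hK : ∃ K : ℝ, 0 ≤ K ∧ ∀ c ∈ S, |bil wm (toR c)| ≤ K * bil wp (toR c) := by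
    have h1 : (Set.image (fun c => |bil wm (toR c)| / bil wp (toR c)) S).Finite := hfin.image _
    obtain ⟨K, hK⟩ := h1.bddAbove
    refine ⟨max K 0, le_max_right _ _, fun c hc => ?_⟩
    rcases (hnef c hc).eq_or_lt with h0 | h0
    · rw [galois h0.symm, ← h0]
      simp
    · have h2 : |bil wm (toR c)| / bil wp (toR c) ≤ K := hK ⟨c, hc, rfl⟩
      rw [div_le_iff₀ h0] at h2
      exact h2.trans (mul_le_mul_of_nonneg_right (le_max_left _ _) h0.le)
  obtain ⟨K, hK0, hK⟩ := hK
  have hsub : ClCone (toR '' S) ⊆ {x : ℝ × (Ix → ℝ) | |bil wm x| ≤ K * bil wp x} := by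
    refine clCone_le ?_ ?_ ?_ ?_ ?_
    · exact isClosed_le ((bil_cont wm).abs) ((bil_cont wp).const_mul K |> fun h => h)
    · simp [bil]
    · intro x hx y hy
      simp only [Set.mem_ofPred_eq] at *
      rw [bil_comm wm (x + y), bil_comm wp (x + y), bil_add_left, bil_add_left, bil_comm x wm,
        bil_comm y wm, bil_comm x wp, bil_comm y wp]
      calc |bil wm x + bil wm y| ≤ |bil wm x| + |bil wm y| := abs_add_le _ _
        _ ≤ K * bil wp x + K * bil wp y := add_le_add hx hy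
        _ = _ := by ring
    · intro a ha x hx
      simp only [Set.mem_ofPred_eq] at *
      rw [bil_comm wm (a • x), bil_comm wp (a • x), bil_smul_left, bil_smul_left, bil_comm x wm,
        bil_comm x wp, abs_mul, abs_of_nonneg ha]
      calc a * |bil wm x| ≤ a * (K * bil wp x) := mul_le_mul_of_nonneg_left hx ha
        _ = _ := by ring
    · rintro _ ⟨c, hc, rfl⟩
      exact hK c hc
  have hfinal := hsub hmem
  simp only [Set.mem_ofPred_eq] at hfinal
  rw [bil_wm_wp, bil_wp_wp, mul_zero] at hfinal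
  norm_num at hfinal

end main

end Pool.Agent.H469R10.ZD
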